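import Pool.Agent.KS6_51.PS.Coef
import Pool.Graph.R_seed8.Results.MP_31565c_an.Full

set_option autoImplicit false

/-!
# The polynomials obtained from `X ^ n` by the operator `R (- d / dX)`
-/

open Filter Topology Finset Polynomial Pool.Agent.H635Z

namespace Pool.Agent.KS6_51.PS

/-- the logarithmic derivative in the upper half plane -/
lemma logder (M : Multiset ℝ) (z : ℂ) (hz : 0 < z.im) :
    aeval z ((M.map fun a => (X - C a : ℝ[X])).prod) ≠ 0 ∧
    (aeval z (derivative (M.map fun a => (X - C a : ℝ[X])).prod) /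
      aeval z ((M.map fun a => (X - C a : ℝ[X])).prod)).im ≤ 0 ∧
    (M ≠ 0 → (aeval z (derivative (M.map fun a => (X - C a : ℝ[X])).prod) /
      aeval z ((M.map fun a => (X - C a : ℝ[X])).prod)).im < 0) := by
  induction M using Multiset.induction_on with
  | empty => simp
  | cons a M ih =>
    obtain ⟨h1, h2, -⟩ := ih
    have ha : z - (a : ℂ) ≠ 0 := by
      intro h
      have := congrArg Complex.im h
      simp at this
      exact hz.ne' this
    have h3 : aeval z (X - C a : ℝ[X]) = z - (a : ℂ) := by simp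
    rw [Multiset.map_cons, Multiset.prod_cons]
    set P := (M.map fun a => (X - C a : ℝ[X])).prod with hP
    have h4 : aeval z (derivative ((X - C a) * P)) / aeval z ((X - C a) * P) =
        (z - a)⁻¹ + aeval z (derivative P) / aeval z P := by
      rw [derivative_mul, derivative_sub, derivative_X, derivative_C, sub_zero, one_mul,
        map_add, map_mul, map_mul, h3]
      field_simp
    have h5 : ((z - (a : ℂ))⁻¹).im < 0 := by
      rw [Complex.inv_im]
      apply div_neg_of_neg_of_pos
      · simp; exact hz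
      · exact Complex.normSq_pos.mpr ha
    refine ⟨?_, ?_, fun _ => ?_⟩
    · rw [map_mul, h3]; exact mul_ne_zero ha h1
    · rw [h4, Complex.add_im]; linarith
    · rw [h4, Complex.add_im]; linarith

/-- Hermite–Poulain for one linear factor -/
lemma hp_step (q : ℝ[X]) (hq : q.Splits) (u : ℝ) : (q - C u * derivative q).Splits := by
  by_cases h0 : q = 0
  · rw [h0]; simp
  by_cases hM : q.roots = 0
  · have hd : q.natDegree = 0 := by rw [hq.natDegree_eq_card_roots, hM]; rfl
    rw [derivative_of_natDegree_zero hd, mul_zero, sub_zero]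
    exact hq
  have hlc : q.leadingCoeff ≠ 0 := leadingCoeff_ne_zero.mpr h0
  apply splits_of_upper
  intro z hz h
  obtain ⟨h1, -, h3⟩ := logder q.roots z hz
  have h4 := h3 hM
  set P := (q.roots.map fun a => (X - C a : ℝ[X])).prod with hP
  have hqP : q = C q.leadingCoeff * P := hq.eq_prod_roots
  have e1 : aeval z q = (q.leadingCoeff : ℂ) * aeval z P := by
    conv_lhs => rw [hqP, map_mul, aeval_C]
    rfl
  have e2 : aeval z (derivative q) = (q.leadingCoeff : ℂ) * aeval z (derivative P) := by
    conv_lhs => rw [hqP, derivative_C_mul, map_mul, aeval_C]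
    rfl
  have hlcC : (q.leadingCoeff : ℂ) ≠ 0 := by exact_mod_cast hlc
  rw [map_sub, map_mul, aeval_C, e1, e2] at h
  have h5 : aeval z P = (u : ℂ) * aeval z (derivative P) := by
    have : (q.leadingCoeff : ℂ) * (aeval z P - (u : ℂ) * aeval z (derivative P)) = 0 := by
      rw [← h]
      show _ = _ - ((u : ℝ) : ℂ) * _
      ring
    have := (mul_eq_zero.mp this).resolve_left hlcC
    linear_combination this
  have hu : (u : ℂ) * (aeval z (derivative P) / aeval z P) = 1 := by
    rw [mul_div_assoc', ← h5, div_self h1]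
  have h6 := congrArg Complex.im hu
  rw [Complex.im_ofReal_mul, Complex.one_im] at h6
  rcases mul_eq_zero.mp h6 with h7 | h7
  · rw [h7] at hu; simp at hu
  · exact h4.ne h7

/-- the operator `R (- d / dX)` -/
noncomputable def Hop (R : ℝ[X]) : Module.End ℝ ℝ[X] :=
  aeval (-(derivative : ℝ[X] →ₗ[ℝ] ℝ[X]) : Module.End ℝ ℝ[X]) R

lemma Hop_C (c : ℝ) (q : ℝ[X]) : Hop (C c) q = C c * q := by
  unfold Hop
  rw [aeval_C]
  simp [Algebra.smul_def]

lemma Hop_X (q : ℝ[X]) : Hop X q = - derivative q := by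
  unfold Hop
  rw [aeval_X]
  rfl

lemma Hop_mul (R S q : ℝ[X]) : Hop (R * S) q = Hop R (Hop S q) := by
  unfold Hop
  rw [map_mul]
  rfl

lemma Hop_add (R S q : ℝ[X]) : Hop (R + S) q = Hop R q + Hop S q := by
  unfold Hop
  rw [map_add]
  rfl

lemma Hop_one (q : ℝ[X]) : Hop 1 q = q := by
  unfold Hop
  rw [map_one]
  rfl

lemma Hop_lin (u : ℝ) (q : ℝ[X]) : Hop (1 + C u * X) q = q - C u * derivative q := by
  rw [Hop_add, Hop_one, Hop_mul, Hop_X, Hop_C]
  ring

lemma Hop_GP_splits (M : Multiset ℝ) (q : ℝ[X]) (hq : q.Splits) : (Hop (GP M) q).Splits := by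
  induction M using Multiset.induction_on generalizing q with
  | empty =>
    have : GP 0 = 1 := by simp [GP]
    rw [this, Hop_one]
    exact hq
  | cons u M ih =>
    rw [GP_cons, Hop_mul, Hop_lin]
    exact hp_step _ (ih q hq) u

lemma Hop_X_pow_splits (m : ℕ) (q : ℝ[X]) (hq : q.Splits) : (Hop (X ^ m) q).Splits := by
  induction m with
  | zero => rw [pow_zero, Hop_one]; exact hq
  | succ m ih =>
    rw [pow_succ', Hop_mul, Hop_X]
    exact (splits_derivative _ ih).neg

lemma Hop_RP_splits (c : ℝ) (m : ℕ) (s : ℝ) (M : Multiset ℝ) (q : ℝ[X]) (hq : q.Splits) :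
    (Hop (RP c m s M) q).Splits := by
  unfold RP
  rw [Hop_mul, Hop_C]
  apply Splits.C_mul
  rw [Hop_mul]
  apply Hop_X_pow_splits
  rw [Hop_mul]
  have h1 := hp_step _ (Hop_GP_splits M q hq) (-s)
  rw [← Hop_lin] at h1
  have h2 : (1 + C (-s) * X : ℝ[X]) = 1 - C s * X := by rw [C_neg]; ring
  rw [h2] at h1
  exact h1

lemma Hop_monomial (j : ℕ) (a : ℝ) (n : ℕ) : Hop (C a * X ^ j) (X ^ n) =
    C ((-1) ^ j * (n.descFactorial j : ℝ) * a) * X ^ (n - j) := by
  have h1 : ∀ q : ℝ[X], Hop (X ^ j) q = C ((-1) ^ j) * derivative^[j] q := by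
    intro q
    induction j with
    | zero => rw [pow_zero, Hop_one]; simp
    | succ j ih =>
      rw [pow_succ', Hop_mul, ih, Hop_X, Function.iterate_succ_apply', derivative_C_mul, pow_succ]
      simp only [C_mul, C_neg, C_1]
      ring
  rw [Hop_mul, h1, Hop_C, iterate_derivative_X_pow_eq_natCast_mul]
  simp only [C_mul, map_natCast]
  ring

lemma Hop_X_pow_coeff (R : ℝ[X]) (n i : ℕ) (hi : i ≤ n) : (Hop R (X ^ n)).coeff (n - i) =
    (-1) ^ i * (n.descFactorial i : ℝ) * R.coeff i := by
  have h1 : ∀ S : ℝ[X], ∀ N : ℕ, S = ∑ j ∈ range N, C (S.coeff j) * X ^ j →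
      Hop S (X ^ n) = ∑ j ∈ range N, C ((-1) ^ j * (n.descFactorial j : ℝ) * S.coeff j) *
        X ^ (n - j) := by
    intro S N hS
    have h2 : ∀ (f : ℕ → ℝ[X]) (N : ℕ) (q : ℝ[X]), Hop (∑ j ∈ range N, f j) q =
        ∑ j ∈ range N, Hop (f j) q := by
      intro f N q
      induction N with
      | zero => simp [Hop]
      | succ N ih => rw [sum_range_succ, sum_range_succ, Hop_add, ih]
    conv_lhs => rw [hS]
    rw [h2]
    exact sum_congr rfl fun j _ => Hop_monomial j _ n
  have h2 : R = ∑ j ∈ range (R.natDegree + 1 + (n + 1)), C (R.coeff j) * X ^ j := by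
    conv_lhs => rw [as_sum_range_C_mul_X_pow' R (n := R.natDegree + 1 + (n + 1)) (by omega)]
  rw [h1 R _ h2, finsetSum_coeff, sum_eq_single i]
  · rw [coeff_C_mul, coeff_X_pow, if_pos rfl, mul_one]
  · intro j hj hji
    rw [coeff_C_mul, coeff_X_pow]
    by_cases hjn : j ≤ n
    · rw [if_neg (by omega), mul_zero]
    · rw [Nat.descFactorial_eq_zero_iff_lt.mpr (by omega)]
      simp
  · intro h
    exfalso; apply h
    rw [mem_range]; omega

lemma Hop_X_pow_natDegree (R : ℝ[X]) (n : ℕ) : (Hop R (X ^ n)).natDegree ≤ n := by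
  have h2 : ∀ (q : ℝ[X]), (Hop R q).natDegree ≤ q.natDegree := by
    intro q
    induction R using Polynomial.induction_on' with
    | add p r hp hr =>
      rw [Hop_add]
      exact (natDegree_add_le _ _).trans (max_le hp hr)
    | monomial j a =>
      rw [← C_mul_X_pow_eq_monomial, Hop_mul, Hop_C]
      refine (natDegree_C_mul_le _ _).trans ?_
      induction j with
      | zero => rw [pow_zero, Hop_one]
      | succ j ih =>
        rw [pow_succ', Hop_mul, Hop_X, natDegree_neg]
        exact (natDegree_derivative_le _).trans (by omega)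
  refine (h2 _).trans ?_
  rw [natDegree_X_pow]

end Pool.Agent.KS6_51.PS
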