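import Pool.Agent.KS6_51.PS.Cpt

set_option autoImplicit false

/-!
# Limits of polynomials and their coefficients
-/

open Filter Topology Finset Polynomial

namespace Pool.Agent.KS6_51.PS

/-- a uniform bound of the coefficients -/
def Bdd (R : ℕ → ℝ[X]) : Prop := ∀ r : ℝ, 0 < r → ∃ C : ℝ, ∀ j i, |(R j).coeff i| * r ^ i ≤ C

lemma aeval_tsum (p : ℝ[X]) (z : ℂ) :
    HasSum (fun i => ((p.coeff i : ℝ) : ℂ) * z ^ i) (aeval z p) := by
  have h : aeval z p = ∑ i ∈ range (p.natDegree + 1), ((p.coeff i : ℝ) : ℂ) * z ^ i := by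
    rw [aeval_eq_sum_range]
    refine sum_congr rfl fun i _ => ?_
    rw [Algebra.smul_def]; rfl
  rw [h]
  apply hasSum_sum_of_ne_finset_zero
  intro i hi
  rw [mem_range, not_lt] at hi
  rw [coeff_eq_zero_of_natDegree_lt (by omega)]
  simp

lemma bound_half {a C : ℝ} {z : ℂ} {i : ℕ} (h : |a| * (2 * (‖z‖ + 1)) ^ i ≤ C) :
    ‖((a : ℝ) : ℂ) * z ^ i‖ ≤ C * (1 / 2) ^ i := by
  rw [norm_mul, norm_pow, Complex.norm_real, Real.norm_eq_abs]
  have h1 : ‖z‖ ^ i ≤ (2 * (‖z‖ + 1)) ^ i * (1 / 2) ^ i := by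
    rw [← mul_pow]
    apply pow_le_pow_left₀ (norm_nonneg _)
    linarith
  calc |a| * ‖z‖ ^ i ≤ |a| * ((2 * (‖z‖ + 1)) ^ i * (1 / 2) ^ i) :=
        mul_le_mul_of_nonneg_left h1 (abs_nonneg _)
    _ = |a| * (2 * (‖z‖ + 1)) ^ i * (1 / 2) ^ i := by ring
    _ ≤ C * (1 / 2) ^ i := mul_le_mul_of_nonneg_right h (by positivity)

/-- the limit of the polynomials is the sum of the power series of the limits of the
coefficients -/
theorem hasSum_limit (R : ℕ → ℝ[X]) (hR : Bdd R) (b : ℕ → ℝ)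
    (hb : ∀ i, Tendsto (fun j => (R j).coeff i) atTop (𝓝 (b i))) (z : ℂ) (w : ℂ)
    (hw : Tendsto (fun j => aeval z (R j)) atTop (𝓝 w)) :
    HasSum (fun i => ((b i : ℝ) : ℂ) * z ^ i) w := by
  obtain ⟨C, hC⟩ := hR (2 * (‖z‖ + 1)) (by positivity)
  have hsum : Summable fun i : ℕ => C * (1 / 2 : ℝ) ^ i :=
    (summable_geometric_of_lt_one (by norm_num) (by norm_num)).mul_left C
  have hbb : ∀ i, |b i| * (2 * (‖z‖ + 1)) ^ i ≤ C := fun i =>
    le_of_tendsto' (((hb i).abs).mul_const _) fun j => hC j i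
  have h1 : Tendsto (fun j => ∑' i, (((R j).coeff i : ℝ) : ℂ) * z ^ i) atTop
      (𝓝 (∑' i, ((b i : ℝ) : ℂ) * z ^ i)) := by
    refine tendsto_tsum_of_dominated_convergence hsum ?_ ?_
    · intro i
      exact ((Complex.continuous_ofReal.tendsto _).comp (hb i)).mul_const _
    · exact Eventually.of_forall fun j i => bound_half (hC j i)
  have h2 : ∀ j, ∑' i, (((R j).coeff i : ℝ) : ℂ) * z ^ i = aeval z (R j) := fun j =>
    (aeval_tsum (R j) z).tsum_eq
  simp only [h2] at h1
  have h3 := tendsto_nhds_unique hw h1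
  have h4 : Summable fun i => ((b i : ℝ) : ℂ) * z ^ i :=
    hsum.of_norm_bounded fun i => bound_half (hbb i)
  rw [h3]
  exact h4.hasSum

/-- uniqueness of power series -/
lemma unique_coeff (b b' : ℕ → ℝ) (F : ℂ → ℂ)
    (h : ∀ z : ℂ, HasSum (fun i => ((b i : ℝ) : ℂ) * z ^ i) (F z))
    (h' : ∀ z : ℂ, HasSum (fun i => ((b' i : ℝ) : ℂ) * z ^ i) (F z)) : b = b' := by
  have key : ∀ c : ℕ → ℝ, (∀ z : ℂ, HasSum (fun i => ((c i : ℝ) : ℂ) * z ^ i) (F z)) →
      HasFPowerSeriesAt F (FormalMultilinearSeries.ofScalars ℂ (fun i => (c i : ℂ))) 0 := by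
    intro c hc
    refine ⟨1, ?_, by simp, ?_⟩
    · have h1 : Summable fun i => ‖((c i : ℝ) : ℂ) * (1 : ℂ) ^ i‖ := by
        have := (hc 2).summable
        have h2 : Tendsto (fun i => ‖((c i : ℝ) : ℂ) * (2 : ℂ) ^ i‖) atTop (𝓝 0) :=
          this.tendsto_atTop_zero.norm.trans (by simp)
        obtain ⟨C, hC⟩ := h2.bddAbove_range
        refine Summable.of_nonneg_of_le (fun i => norm_nonneg _) (fun i => ?_)
          ((summable_geometric_of_lt_one (r := (1 / 2 : ℝ)) (by norm_num) (by norm_num)).mul_left C)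
        have h3 : ‖((c i : ℝ) : ℂ) * (2 : ℂ) ^ i‖ ≤ C := hC ⟨i, rfl⟩
        rw [norm_mul, norm_pow] at h3 ⊢
        simp only [norm_one, one_pow, mul_one]
        have h4 : ‖(2 : ℂ)‖ = 2 := by simp
        rw [h4] at h3
        calc ‖((c i : ℝ) : ℂ)‖ = ‖((c i : ℝ) : ℂ)‖ * 2 ^ i * (1 / 2) ^ i := by
              rw [mul_assoc, ← mul_pow]; norm_num
          _ ≤ C * (1 / 2) ^ i := mul_le_mul_of_nonneg_right h3 (by positivity)
      refine FormalMultilinearSeries.le_radius_of_summable (r := 1) _ ?_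
      refine Summable.of_nonneg_of_le (fun i => by positivity) (fun i => ?_) h1
      simp only [NNReal.coe_one, one_pow, mul_one]
      rw [FormalMultilinearSeries.ofScalars_norm]
    · intro y _
      rw [zero_add]
      have := hc y
      simpa [FormalMultilinearSeries.ofScalars_apply_eq, mul_comm] using this
  have h1 := (key b h).eq_formalMultilinearSeries (key b' h')
  funext i
  have h2 := congrArg (fun p : FormalMultilinearSeries ℂ ℂ ℂ => p i (fun _ => 1)) h1
  simp only [FormalMultilinearSeries.ofScalars_apply_eq, one_pow, smul_eq_mul, mul_one] at h2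
  exact_mod_cast h2

/-- convergence of the functions implies convergence of the coefficients -/
theorem coeff_tendsto (R : ℕ → ℝ[X]) (hR : Bdd R) (b : ℕ → ℝ) (F : ℂ → ℂ)
    (hb : ∀ z : ℂ, HasSum (fun i => ((b i : ℝ) : ℂ) * z ^ i) (F z))
    (hF : ∀ z : ℂ, Tendsto (fun j => aeval z (R j)) atTop (𝓝 (F z))) (i : ℕ) :
    Tendsto (fun j => (R j).coeff i) atTop (𝓝 (b i)) := by
  obtain ⟨C, hC⟩ := hR 1 one_pos
  simp only [one_pow, mul_one] at hC
  have hKc : IsCompact (Set.pi Set.univ fun _ : ℕ => Set.Icc (-C) C) :=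
    isCompact_univ_pi fun k => isCompact_Icc
  refine tendsto_of_subseq_tendsto fun ns hns => ?_
  obtain ⟨b', -, φ, hφ, hlim⟩ := hKc.tendsto_subseq (x := fun j => fun i => (R (ns j)).coeff i)
    (fun j k _ => by
      have := abs_le.mp (hC (ns j) k)
      exact ⟨this.1, this.2⟩)
  rw [tendsto_pi_nhds] at hlim
  have h1 : ∀ z : ℂ, HasSum (fun i => ((b' i : ℝ) : ℂ) * z ^ i) (F z) := by
    intro z
    refine hasSum_limit (fun j => R (ns (φ j))) ?_ b' hlim z (F z) ?_
    · intro r hr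
      obtain ⟨C', hC'⟩ := hR r hr
      exact ⟨C', fun j i => hC' _ i⟩
    · exact (hF z).comp (hns.comp hφ.tendsto_atTop)
  have h2 := unique_coeff b b' F hb h1
  refine ⟨φ, ?_⟩
  rw [h2]
  exact hlim i

/-- `∏ (1 + u X)` -/
noncomputable def GP (M : Multiset ℝ) : ℝ[X] := (M.map fun u => 1 + C u * X).prod

lemma GP_cons (u : ℝ) (M : Multiset ℝ) : GP (u ::ₘ M) = (1 + C u * X) * GP M := by
  simp [GP]

lemma aeval_GP (M : Multiset ℝ) (z : ℂ) :
    aeval z (GP M) = (M.map fun u : ℝ => (1 + (u : ℂ) * z)).prod := by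
  induction M using Multiset.induction_on with
  | empty => simp [GP]
  | cons u M ih =>
    rw [GP_cons, map_mul, ih, Multiset.map_cons, Multiset.prod_cons]
    simp

lemma lin_coeff (u : ℝ) (p : ℝ[X]) (i : ℕ) :
    ((1 + C u * X) * p).coeff (i + 1) = p.coeff (i + 1) + u * p.coeff i := by
  rw [add_mul, one_mul, coeff_add, mul_assoc, coeff_C_mul, coeff_X_mul]

lemma lin_coeff_zero (u : ℝ) (p : ℝ[X]) : ((1 + C u * X) * p).coeff 0 = p.coeff 0 := by
  rw [add_mul, one_mul, coeff_add, mul_assoc, coeff_C_mul, coeff_X_mul_zero, mul_zero, add_zero]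

lemma GP_nonneg (M : Multiset ℝ) (hM : ∀ u ∈ M, 0 ≤ u) (i : ℕ) : 0 ≤ (GP M).coeff i := by
  induction M using Multiset.induction_on generalizing i with
  | empty => simp only [GP, Multiset.map_zero, Multiset.prod_zero, coeff_one]; split_ifs <;> norm_num
  | cons u M ih =>
    have h1 := fun i => ih (fun v hv => hM v (Multiset.mem_cons_of_mem hv)) i
    have hu := hM u (Multiset.mem_cons_self u M)
    rw [GP_cons]
    rcases i with _ | i
    · rw [lin_coeff_zero]; exact h1 0
    · rw [lin_coeff]; exact add_nonneg (h1 _) (mul_nonneg hu (h1 _))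

lemma GP_zero (M : Multiset ℝ) : (GP M).coeff 0 = 1 := by
  induction M using Multiset.induction_on with
  | empty => simp [GP]
  | cons u M ih => rw [GP_cons, lin_coeff_zero, ih]

lemma GP_one (M : Multiset ℝ) : (GP M).coeff 1 = M.sum := by
  induction M using Multiset.induction_on with
  | empty => simp [GP, coeff_one]
  | cons u M ih => rw [GP_cons, lin_coeff, ih, GP_zero, Multiset.sum_cons]; ring

lemma GP_two_le (M : Multiset ℝ) : (GP M).coeff 2 ≤ M.sum ^ 2 / 2 := by
  induction M using Multiset.induction_on with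
  | empty => simp [GP, coeff_one]
  | cons u M ih => rw [GP_cons, lin_coeff, GP_one, Multiset.sum_cons]; nlinarith [sq_nonneg u]

lemma GP_step (M : Multiset ℝ) (hM : ∀ u ∈ M, 0 ≤ u) (i : ℕ) :
    (GP M).coeff (i + 1) ≤ M.sum * (GP M).coeff i := by
  induction M using Multiset.induction_on generalizing i with
  | empty => simp [GP, coeff_one]
  | cons u M ih =>
    have hM' : ∀ v ∈ M, 0 ≤ v := fun v hv => hM v (Multiset.mem_cons_of_mem hv)
    have h1 := fun i => ih hM' i
    have hu := hM u (Multiset.mem_cons_self u M)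
    have hs : 0 ≤ M.sum := Multiset.sum_nonneg hM'
    rw [GP_cons, lin_coeff, Multiset.sum_cons]
    rcases i with _ | i
    · rw [lin_coeff_zero, GP_zero]
      have := h1 0
      rw [GP_zero] at this
      linarith
    · rw [lin_coeff]
      have h2 := h1 (i + 1)
      have h3 : 0 ≤ (GP M).coeff i := GP_nonneg M hM' i
      nlinarith [mul_nonneg (mul_nonneg hu hs) h3, mul_nonneg (mul_nonneg hu hu) h3]

/-- the polynomials in the proof -/
noncomputable def RP (c : ℝ) (m : ℕ) (s : ℝ) (M : Multiset ℝ) : ℝ[X] :=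
  C c * (X ^ m * ((1 - C s * X) * GP M))

lemma aeval_RP (c : ℝ) (m : ℕ) (s : ℝ) (M : Multiset ℝ) (z : ℂ) :
    aeval z (RP c m s M) = c * (z ^ m * ((1 - s * z) *
      (M.map fun u : ℝ => (1 + (u : ℂ) * z)).prod)) := by
  unfold RP
  rw [map_mul, map_mul, map_mul, aeval_GP]
  simp

/-- coefficientwise majorant -/
def Maj (p q : ℝ[X]) : Prop := ∀ i, |p.coeff i| ≤ q.coeff i

lemma Maj.mul {p q p' q' : ℝ[X]} (h : Maj p q) (h' : Maj p' q') : Maj (p * p') (q * q') := by
  intro i
  rw [coeff_mul, coeff_mul]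
  refine (abs_sum_le_sum_abs _ _).trans (sum_le_sum fun x _ => ?_)
  rw [abs_mul]
  exact mul_le_mul (h _) (h' _) (abs_nonneg _) ((abs_nonneg _).trans (h _))

lemma Maj.eval {p q : ℝ[X]} (h : Maj p q) (r : ℝ) (hr : 0 < r) (i : ℕ) :
    |p.coeff i| * r ^ i ≤ q.eval r := by
  have h0 : ∀ i, 0 ≤ q.coeff i := fun i => (abs_nonneg _).trans (h i)
  by_cases hi : i ≤ q.natDegree
  · rw [eval_eq_sum_range]
    refine (mul_le_mul_of_nonneg_right (h i) (by positivity)).trans ?_
    exact single_le_sum (f := fun i => q.coeff i * r ^ i)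
      (fun i _ => mul_nonneg (h0 i) (by positivity)) (by rw [mem_range]; omega)
  · have h1 : |p.coeff i| ≤ 0 := by
      have := h i
      rwa [coeff_eq_zero_of_natDegree_lt (by omega : q.natDegree < i)] at this
    have h2 : 0 ≤ q.eval r := by
      rw [eval_eq_sum_range]
      exact sum_nonneg fun i _ => mul_nonneg (h0 i) (by positivity)
    calc |p.coeff i| * r ^ i ≤ 0 * r ^ i := mul_le_mul_of_nonneg_right h1 (by positivity)
      _ ≤ _ := by rw [zero_mul]; exact h2

lemma GP_eval_le (M : Multiset ℝ) (hM : ∀ u ∈ M, 0 ≤ u) (r : ℝ) (hr : 0 < r) :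
    0 ≤ (GP M).eval r ∧ (GP M).eval r ≤ Real.exp (M.sum * r) := by
  induction M using Multiset.induction_on with
  | empty => simp [GP]
  | cons u M ih =>
    have hu := hM u (Multiset.mem_cons_self u M)
    obtain ⟨h1, h2⟩ := ih (fun v hv => hM v (Multiset.mem_cons_of_mem hv))
    rw [GP_cons, eval_mul, Multiset.sum_cons, add_mul, Real.exp_add]
    simp only [eval_add, eval_one, eval_mul, eval_C, eval_X]
    have h3 : 1 + u * r ≤ Real.exp (u * r) := by
      have := Real.add_one_le_exp (u * r); linarith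
    have h4 : 0 ≤ 1 + u * r := by positivity
    exact ⟨mul_nonneg h4 h1, mul_le_mul h3 h2 h1 (Real.exp_pos _).le⟩

lemma RP_bdd (c : ℕ → ℝ) (m : ℕ) (s : ℕ → ℝ) (M : ℕ → Multiset ℝ) (A B : ℝ)
    (hc : ∀ j, |c j| ≤ A) (hs : ∀ j, |s j| ≤ B) (hM : ∀ j, ∀ u ∈ M j, 0 ≤ u)
    (hMB : ∀ j, (M j).sum ≤ B) : Bdd fun j => RP (c j) m (s j) (M j) := by
  intro r hr
  refine ⟨A * (r ^ m * ((1 + B * r) * Real.exp (B * r))), fun j i => ?_⟩
  have h1 : Maj (RP (c j) m (s j) (M j)) (C |c j| * (X ^ m * ((1 + C |s j| * X) * GP (M j)))) := by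
    unfold RP
    apply Maj.mul
    · intro i; rw [coeff_C, coeff_C]; split_ifs <;> simp
    apply Maj.mul
    · intro i; rw [coeff_X_pow]; split_ifs <;> simp
    apply Maj.mul
    · intro i
      rcases i with _ | _ | i
      · simp
      · simp [coeff_one]
      · simp [coeff_one, coeff_X]
    · intro i
      rw [abs_of_nonneg (GP_nonneg _ (hM j) i)]
  refine (h1.eval r hr i).trans ?_
  obtain ⟨h2, h3⟩ := GP_eval_le (M j) (hM j) r hr
  simp only [eval_mul, eval_C, eval_pow, eval_X, eval_add, eval_one]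
  have hA : 0 ≤ A := (abs_nonneg _).trans (hc j)
  have hB : 0 ≤ B := (abs_nonneg _).trans (hs j)
  have h4 : 1 + |s j| * r ≤ 1 + B * r := by
    have := mul_le_mul_of_nonneg_right (hs j) hr.le
    linarith
  have h5 : (GP (M j)).eval r ≤ Real.exp (B * r) :=
    h3.trans (Real.exp_le_exp.mpr (mul_le_mul_of_nonneg_right (hMB j) hr.le))
  have h6 : 0 ≤ 1 + |s j| * r := by positivity
  apply mul_le_mul (hc j) _ (by positivity) hA
  apply mul_le_mul_of_nonneg_left _ (by positivity)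
  exact mul_le_mul h4 h5 h2 (by positivity)

end Pool.Agent.KS6_51.PS
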