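import Mathlib

set_option autoImplicit false

/-!
# Limits of finite products `∏ (1 + u z)` with `u ≥ 0` and bounded sums
-/

open Filter Topology Finset

namespace Pool.Agent.KS6_51.PS

/-- the function `exp (α z) ∏ (1 + x_k z)` -/
noncomputable def Gf (α : ℝ) (x : ℕ → ℝ) (z : ℂ) : ℂ :=
  Complex.exp ((α : ℂ) * z) * ∏' k, (1 + (x k : ℂ) * z)

/-- `(1 + w) exp (- w) - 1` -/
noncomputable def ph (w : ℂ) : ℂ := (1 + w) * Complex.exp (-w) - 1

lemma norm_ph_le (w : ℂ) : ‖ph w‖ ≤ ‖w‖ ^ 2 * Real.exp (2 * ‖w‖) := by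
  have h1 : ph w = -(Complex.exp (-w) * (Complex.exp w - (1 + w))) := by
    unfold ph
    have : Complex.exp (-w) * Complex.exp w = 1 := by rw [← Complex.exp_add]; simp
    linear_combination this
  have h2 := Complex.norm_exp_sub_sum_le_norm_mul_exp w 2
  have h3 : ∑ m ∈ range 2, w ^ m / (m.factorial : ℂ) = 1 + w := by
    simp [Finset.sum_range_succ]
  rw [h3] at h2
  have h4 : ‖Complex.exp (-w)‖ ≤ Real.exp ‖w‖ := by
    have := Complex.norm_exp_le_exp_norm (-w)
    rwa [norm_neg] at this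
  rw [h1, norm_neg, norm_mul]
  calc ‖Complex.exp (-w)‖ * ‖Complex.exp w - (1 + w)‖
      ≤ Real.exp ‖w‖ * (‖w‖ ^ 2 * Real.exp ‖w‖) :=
        mul_le_mul h4 h2 (norm_nonneg _) (Real.exp_pos _).le
    _ = ‖w‖ ^ 2 * Real.exp (2 * ‖w‖) := by rw [two_mul, Real.exp_add]; ring

lemma summable_cast {y : ℕ → ℝ} (hy : Summable y) (z : ℂ) : Summable fun k => (y k : ℂ) * z :=
  (Complex.ofRealCLM.summable hy).mul_right z

lemma tprod_eq {y : ℕ → ℝ} (hy : Summable y) (z : ℂ) :
    ∏' k, (1 + (y k : ℂ) * z) =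
      Complex.exp (((∑' k, y k : ℝ) : ℂ) * z) * ∏' k, (1 + ph ((y k : ℂ) * z)) := by
  have hs := summable_cast hy z
  have h1 : Multipliable fun k => (1 + (y k : ℂ) * z) :=
    Complex.multipliable_one_add_of_summable hs
  have h2 : HasProd (fun k => Complex.exp (-((y k : ℂ) * z)))
      (Complex.exp (-(∑' k, (y k : ℂ) * z))) := hs.hasSum.neg.cexp
  have h3 : ∏' k, (1 + ph ((y k : ℂ) * z)) =
      (∏' k, (1 + (y k : ℂ) * z)) * Complex.exp (-(∑' k, (y k : ℂ) * z)) := by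
    rw [← h2.tprod_eq, ← h1.tprod_mul h2.multipliable]
    congr 1
    funext k
    unfold ph
    ring
  have h4 : ∑' k, (y k : ℂ) * z = ((∑' k, y k : ℝ) : ℂ) * z := by
    rw [tsum_mul_right, Complex.ofReal_tsum]
  rw [h3, h4, mul_comm, mul_assoc, ← Complex.exp_add]
  simp

/-- convergence of the products -/
lemma tendsto_prod {y : ℕ → ℕ → ℝ} {x : ℕ → ℝ} {B S : ℝ} (hB : 0 ≤ B)
    (hy0 : ∀ j k, 0 ≤ y j k) (hyB : ∀ j k, y j k ≤ B / (k + 1)) (hys : ∀ j, Summable (y j))
    (hyx : ∀ k, Tendsto (fun j => y j k) atTop (𝓝 (x k)))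
    (hS : Tendsto (fun j => ∑' k, y j k) atTop (𝓝 S)) :
    (∀ k, 0 ≤ x k) ∧ Summable x ∧ ∑' k, x k ≤ S ∧
    ∀ z : ℂ, Tendsto (fun j => ∏' k, (1 + (y j k : ℂ) * z)) atTop
      (𝓝 (Gf (S - ∑' k, x k) x z)) := by
  have hx0 : ∀ k, 0 ≤ x k := fun k => ge_of_tendsto' (hyx k) fun j => hy0 j k
  have hxB : ∀ k, x k ≤ B / (k + 1) := fun k => le_of_tendsto' (hyx k) fun j => hyB j k
  have hfin : ∀ n, ∑ k ∈ range n, x k ≤ S := by
    intro n
    have h1 : Tendsto (fun j => ∑ k ∈ range n, y j k) atTop (𝓝 (∑ k ∈ range n, x k)) :=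
      tendsto_finsetSum _ fun k _ => hyx k
    refine le_of_tendsto_of_tendsto' h1 hS fun j => ?_
    exact (hys j).sum_le_tsum _ fun k _ => hy0 j k
  have hxs : Summable x := summable_of_sum_range_le hx0 hfin
  have hle : ∑' k, x k ≤ S := hxs.tsum_le_of_sum_range_le hfin
  refine ⟨hx0, hxs, hle, fun z => ?_⟩
  have key : Tendsto (fun j => ∏' k, (1 + ph ((y j k : ℂ) * z))) atTop
      (𝓝 (∏' k, (1 + ph ((x k : ℂ) * z)))) := by
    have hsum : Summable fun k : ℕ =>
        (B * ‖z‖) ^ 2 * Real.exp (2 * (B * ‖z‖)) * (1 / ((k : ℝ) + 1) ^ 2) := by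
      apply Summable.mul_left
      exact_mod_cast (summable_nat_add_iff 1).mpr
        (Real.summable_one_div_nat_pow.mpr (one_lt_two))
    refine tendsto_tprod_one_add_of_dominated_convergence hsum ?_ ?_
    · intro k
      have h1 : Continuous ph := by unfold ph; fun_prop
      refine (h1.tendsto _).comp ?_
      exact ((Complex.continuous_ofReal.tendsto _).comp (hyx k)).mul_const z
    · refine Eventually.of_forall fun j k => (norm_ph_le _).trans ?_
      have hk : (0 : ℝ) < (k : ℝ) + 1 := by positivity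
      have h1 : ‖(y j k : ℂ) * z‖ ≤ (B * ‖z‖) / (k + 1) := by
        rw [norm_mul, Complex.norm_real, Real.norm_of_nonneg (hy0 j k)]
        calc y j k * ‖z‖ ≤ B / (k + 1) * ‖z‖ :=
              mul_le_mul_of_nonneg_right (hyB j k) (norm_nonneg _)
          _ = (B * ‖z‖) / (k + 1) := by ring
      have h2 : ‖(y j k : ℂ) * z‖ ≤ B * ‖z‖ := by
        refine h1.trans (div_le_self (by positivity) ?_)
        have : (0 : ℝ) ≤ k := Nat.cast_nonneg k
        linarith
      calc ‖(y j k : ℂ) * z‖ ^ 2 * Real.exp (2 * ‖(y j k : ℂ) * z‖)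
          ≤ ((B * ‖z‖) / (k + 1)) ^ 2 * Real.exp (2 * (B * ‖z‖)) := by
            apply mul_le_mul
            · exact pow_le_pow_left₀ (norm_nonneg _) h1 2
            · exact Real.exp_le_exp.mpr (by linarith)
            · exact (Real.exp_pos _).le
            · positivity
        _ = (B * ‖z‖) ^ 2 * Real.exp (2 * (B * ‖z‖)) * (1 / ((k : ℝ) + 1) ^ 2) := by
            field_simp
  have h2 : Tendsto (fun j => Complex.exp (((∑' k, y j k : ℝ) : ℂ) * z)) atTop
      (𝓝 (Complex.exp ((S : ℂ) * z))) := by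
    have h1 : Continuous fun s : ℝ => Complex.exp ((s : ℂ) * z) := by fun_prop
    exact (h1.tendsto _).comp hS
  have h3 := h2.mul key
  have h4 : ∀ j, ∏' k, (1 + (y j k : ℂ) * z) = Complex.exp (((∑' k, y j k : ℝ) : ℂ) * z) *
      ∏' k, (1 + ph ((y j k : ℂ) * z)) := fun j => tprod_eq (hys j) z
  simp only [h4]
  have h5 : Gf (S - ∑' k, x k) x z =
      Complex.exp ((S : ℂ) * z) * ∏' k, (1 + ph ((x k : ℂ) * z)) := by
    unfold Gf
    rw [tprod_eq hxs, ← mul_assoc, ← Complex.exp_add]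
    congr 2
    push_cast
    ring
  rw [h5]
  exact h3

/-- a finite multiset of nonnegative numbers as a decreasing sequence -/
lemma exists_seq (M : Multiset ℝ) (hM : ∀ u ∈ M, 0 ≤ u) : ∃ y : ℕ → ℝ, (∀ k, 0 ≤ y k) ∧
    (∀ k, y k ≤ M.sum / (k + 1)) ∧ Summable y ∧ ∑' k, y k = M.sum ∧
    ∀ z : ℂ, ∏' k, (1 + (y k : ℂ) * z) = (M.map fun u : ℝ => (1 + (u : ℂ) * z)).prod := by
  set l := M.sort (· ≥ ·) with hl
  have hlM : (l : Multiset ℝ) = M := Multiset.sort_eq _ _
  have hl0 : ∀ u ∈ l, 0 ≤ u := by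
    intro u hu
    apply hM
    rw [← hlM]
    exact hu
  have hsort : l.Pairwise (· ≥ ·) := Multiset.pairwise_sort _ _
  have hy0 : ∀ k, 0 ≤ l.getD k 0 := by
    intro k
    rcases Nat.lt_or_ge k l.length with h | h
    · rw [List.getD_eq_getElem _ _ h]
      exact hl0 _ (List.getElem_mem h)
    · rw [List.getD_eq_default _ _ h]
  have hz : ∀ k, k ∉ range l.length → l.getD k 0 = 0 := by
    intro k hk
    rw [mem_range, not_lt] at hk
    exact List.getD_eq_default _ _ hk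
  have hsum : HasSum (fun k => l.getD k 0) M.sum := by
    have h1 : ∑ k ∈ range l.length, l.getD k 0 = M.sum := by
      rw [← hlM, Multiset.sum_coe, Finset.sum_range, ← Fin.sum_univ_getElem l]
      refine sum_congr rfl fun i _ => ?_
      rw [List.getD_eq_getElem _ _ i.2]
    rw [← h1]
    exact hasSum_sum_of_ne_finset_zero hz
  have hanti : ∀ i k, i ≤ k → l.getD k 0 ≤ l.getD i 0 := by
    intro i k hik
    rcases Nat.lt_or_ge k l.length with h | h
    · rw [List.getD_eq_getElem _ _ h, List.getD_eq_getElem _ _ (lt_of_le_of_lt hik h)]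
      rcases hik.eq_or_lt with rfl | hlt
      · exact le_rfl
      · exact List.pairwise_iff_getElem.mp hsort i k _ h hlt
    · rw [List.getD_eq_default _ _ h]
      exact hy0 i
  refine ⟨fun k => l.getD k 0, hy0, ?_, hsum.summable, hsum.tsum_eq, ?_⟩
  · intro k
    rw [le_div_iff₀ (by positivity)]
    calc l.getD k 0 * ((k : ℝ) + 1) = ∑ _i ∈ range (k + 1), l.getD k 0 := by
          rw [sum_const, card_range, nsmul_eq_mul]; push_cast; ring
      _ ≤ ∑ i ∈ range (k + 1), l.getD i 0 := by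
          refine sum_le_sum fun i hi => hanti i k ?_
          rw [mem_range] at hi; omega
      _ ≤ M.sum := by
          rw [← hsum.tsum_eq]
          exact hsum.summable.sum_le_tsum _ fun i _ => hy0 i
  · intro z
    rw [tprod_eq_prod (s := range l.length) (by
      intro k hk
      show 1 + ((l.getD k 0 : ℝ) : ℂ) * z = 1
      rw [hz k hk]; simp)]
    rw [← hlM, Multiset.map_coe, Multiset.prod_coe, Finset.prod_range,
      ← Fin.prod_univ_fun_getElem l (fun u : ℝ => (1 + (u : ℂ) * z))]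
    refine prod_congr rfl fun i _ => ?_
    beta_reduce
    rw [List.getD_eq_getElem _ _ i.2]

/-- **Compactness.** Finite products with nonnegative parameters and bounded sums have a
subsequence which converges to `exp (α z) ∏ (1 + x_k z)`. -/
theorem compactness (M : ℕ → Multiset ℝ) (hM : ∀ j, ∀ u ∈ M j, 0 ≤ u) (B : ℝ)
    (hB : ∀ j, (M j).sum ≤ B) : ∃ (φ : ℕ → ℕ) (α : ℝ) (x : ℕ → ℝ), StrictMono φ ∧ 0 ≤ α ∧
      (∀ k, 0 ≤ x k) ∧ Summable x ∧
      Tendsto (fun j => (M (φ j)).sum) atTop (𝓝 (α + ∑' k, x k)) ∧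
      ∀ z : ℂ, Tendsto (fun j => ((M (φ j)).map fun u : ℝ => (1 + (u : ℂ) * z)).prod) atTop
        (𝓝 (Gf α x z)) := by
  have hM0 : ∀ j, 0 ≤ (M j).sum := fun j => Multiset.sum_nonneg (hM j)
  have hB0 : 0 ≤ B := (hM0 0).trans (hB 0)
  choose y hy0 hyB hys hyt hyp using fun j => exists_seq (M j) (hM j)
  have hyB' : ∀ j k, y j k ≤ B / (k + 1) := fun j k =>
    (hyB j k).trans (div_le_div_of_nonneg_right (hB j) (by positivity))
  set K : Set ((ℕ → ℝ) × ℝ) :=
    (Set.pi Set.univ fun k : ℕ => Set.Icc (0 : ℝ) (B / (k + 1))) ×ˢ Set.Icc (0 : ℝ) B with hK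
  have hKc : IsCompact K := (isCompact_univ_pi fun k => isCompact_Icc).prod isCompact_Icc
  obtain ⟨p, -, φ, hφ, hlim⟩ := hKc.tendsto_subseq (x := fun j => (y j, (M j).sum)) (by
    intro j
    refine ⟨fun k _ => ⟨hy0 j k, hyB' j k⟩, hM0 j, hB j⟩)
  obtain ⟨x, S⟩ := p
  rw [nhds_prod_eq, tendsto_prod_iff'] at hlim
  obtain ⟨hx, hS⟩ := hlim
  rw [tendsto_pi_nhds] at hx
  obtain ⟨h1, h2, h3, h4⟩ := tendsto_prod (y := fun j => y (φ j)) (x := x) (B := B) (S := S) hB0
    (fun j k => hy0 _ k) (fun j k => hyB' _ k) (fun j => hys _) (fun k => hx k) (by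
      have : (fun j => ∑' k, y (φ j) k) = fun j => (M (φ j)).sum := by
        funext j; exact hyt _
      rw [this]; exact hS)
  refine ⟨φ, S - ∑' k, x k, x, hφ, by linarith, h1, h2, ?_, fun z => ?_⟩
  · rw [sub_add_cancel]; exact hS
  · have := h4 z
    simp only [hyp] at this
    exact this

end Pool.Agent.KS6_51.PS
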