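import Pool.Agent.KS6_51.PS.Alg

set_option autoImplicit false

/-!
# Diagonal maps
-/

open Filter Topology Finset Polynomial Pool.Agent.H635Z
open Pool.Agent.Results.MP_0cd67c_ag.ZeroSumPreservers
open Pool.Agent.Results.MP_31565c_an.Full

namespace Pool.Agent.KS6_51.PS

/-- `T` is the diagonal map with multipliers `γ`: `T (t ^ (n - i)) = γ i * t ^ (d - i)` for
admissible `i ≤ d`, and `T (t ^ (n - i)) = 0` for `i > d`. -/
def Diag {n d : ℕ} (γ : ℕ → ℝ) (T : ZeroSum n →ₗ[ℝ] ZeroSum d) : Prop :=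
  ∀ i : ℕ, i ≤ n → i ≠ 1 → ∀ m : ZeroSum n, (m : ℝ[X]) = X ^ (n - i) →
    (T m : ℝ[X]) = if i ≤ d then C (γ i) * X ^ (d - i) else 0

/-- the polynomial in the definition of the diagonal map -/
noncomputable def dpol (γ : ℕ → ℝ) (n d : ℕ) (g : ℝ[X]) : ℝ[X] :=
  ∑ i ∈ (range (min n d + 1)).erase 1, C (γ i * g.coeff (n - i)) * X ^ (d - i)

lemma dpol_coeff (γ : ℕ → ℝ) (n d : ℕ) (g : ℝ[X]) (i : ℕ) (hi : i ≤ d) :
    (dpol γ n d g).coeff (d - i) = if i ≤ n ∧ i ≠ 1 then γ i * g.coeff (n - i) else 0 := by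
  unfold dpol
  rw [finsetSum_coeff]
  have hterm : ∀ j ∈ (range (min n d + 1)).erase 1,
      (C (γ j * g.coeff (n - j)) * X ^ (d - j) : ℝ[X]).coeff (d - i) =
        if j = i then γ j * g.coeff (n - j) else 0 := by
    intro j hj
    rw [mem_erase, mem_range] at hj
    rw [coeff_C_mul, coeff_X_pow]
    by_cases h : j = i
    · rw [h, if_pos rfl, if_pos rfl, mul_one]
    · rw [if_neg (by omega), if_neg h, mul_zero]
  rw [sum_congr rfl hterm, sum_ite_eq']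
  by_cases h : i ≤ n ∧ i ≠ 1
  · rw [if_pos (by rw [mem_erase, mem_range]; omega), if_pos h]
  · rw [if_neg (by rw [mem_erase, mem_range]; omega), if_neg h]

lemma dpol_mem (γ : ℕ → ℝ) (n d : ℕ) (hd : 1 ≤ d) (g : ℝ[X]) : dpol γ n d g ∈ ZeroSum d := by
  constructor
  · show (dpol γ n d g).natDegree ≤ d
    unfold dpol
    apply natDegree_sum_le_of_forall_le
    intro i _
    exact (natDegree_C_mul_X_pow_le _ _).trans (by omega)
  · show (dpol γ n d g).coeff (d - 1) = 0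
    rw [dpol_coeff γ n d g 1 hd, if_neg (by tauto)]

/-- the diagonal map with multipliers `γ` -/
noncomputable def diagMap (γ : ℕ → ℝ) (n d : ℕ) (hd : 1 ≤ d) : ZeroSum n →ₗ[ℝ] ZeroSum d where
  toFun g := ⟨dpol γ n d g, dpol_mem γ n d hd g⟩
  map_add' g h := by
    apply Subtype.ext
    show dpol γ n d ((g : ℝ[X]) + h) = dpol γ n d g + dpol γ n d h
    unfold dpol
    rw [← sum_add_distrib]
    refine sum_congr rfl fun i _ => ?_
    rw [coeff_add, mul_add, C_add]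
    ring
  map_smul' a g := by
    apply Subtype.ext
    show dpol γ n d (a • (g : ℝ[X])) = a • dpol γ n d g
    unfold dpol
    rw [smul_sum]
    refine sum_congr rfl fun i _ => ?_
    rw [coeff_smul, smul_eq_C_mul, smul_eq_mul, ← mul_assoc (C a), ← C_mul]
    congr 2
    ring

lemma diag_diagMap (γ : ℕ → ℝ) (n d : ℕ) (hd : 1 ≤ d) : Diag γ (diagMap γ n d hd) := by
  intro i hi hi1 m hm
  show dpol γ n d (m : ℝ[X]) = _
  rw [hm]
  unfold dpol
  by_cases h : i ≤ d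
  · rw [if_pos h, sum_eq_single i]
    · rw [coeff_X_pow, if_pos rfl, mul_one]
    · intro j hj hji
      rw [mem_erase, mem_range] at hj
      rw [coeff_X_pow, if_neg (by omega), mul_zero, C_0, zero_mul]
    · intro h'
      exfalso; apply h'
      rw [mem_erase, mem_range]; omega
  · rw [if_neg h]
    apply sum_eq_zero
    intro j hj
    rw [mem_erase, mem_range] at hj
    rw [coeff_X_pow, if_neg (by omega), mul_zero, C_0, zero_mul]

lemma Diag.coeff {n d : ℕ} (hn : 1 ≤ n) {γ : ℕ → ℝ} {T : ZeroSum n →ₗ[ℝ] ZeroSum d}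
    (h : Diag γ T) (g : ZeroSum n) (i : ℕ) (hi : i ≤ d) : (T g : ℝ[X]).coeff (d - i) =
      if i ≤ n ∧ i ≠ 1 then γ i * (g : ℝ[X]).coeff (n - i) else 0 := by
  have h1 := T_coeff hn T γ h g i
  rw [coeff_reflect, revAt_le hi] at h1
  rw [h1]
  by_cases h2 : i ≤ n ∧ i ≠ 1
  · rw [if_pos ⟨hi, h2.1, h2.2⟩, if_pos h2, coeff_reflect, revAt_le h2.1]
  · rw [if_neg (by tauto), if_neg h2]

lemma Diag.unique {n d : ℕ} (hn : 1 ≤ n) {γ : ℕ → ℝ} {T T' : ZeroSum n →ₗ[ℝ] ZeroSum d}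
    (h : Diag γ T) (h' : Diag γ T') : T = T' := by
  apply LinearMap.ext
  intro g
  apply Subtype.ext
  ext k
  by_cases hk : k ≤ d
  · have e : k = d - (d - k) := by omega
    rw [e, h.coeff hn g (d - k) (by omega), h'.coeff hn g (d - k) (by omega)]
  · rw [coeff_eq_zero_of_natDegree_lt (lt_of_le_of_lt (T g).2.1 (by omega)),
      coeff_eq_zero_of_natDegree_lt (lt_of_le_of_lt (T' g).2.1 (by omega))]

/-- existence and uniqueness of the diagonal map -/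
lemma existsUnique_diag (γ : ℕ → ℝ) (n d : ℕ) (hn : 1 ≤ n) (hd : 1 ≤ d) :
    ∃! T : ZeroSum n →ₗ[ℝ] ZeroSum d, Diag γ T :=
  ⟨diagMap γ n d hd, diag_diagMap γ n d hd, fun _ h => h.unique hn (diag_diagMap γ n d hd)⟩

lemma Diag.diagonalWith {n : ℕ} {γ : ℕ → ℝ} {T : ZeroSum n →ₗ[ℝ] ZeroSum n} (h : Diag γ T) :
    DiagonalWith T (fun k => γ (n - k)) := by
  intro k hk hk1 m hm
  rw [h (n - k) (by omega) (by omega) m (by rw [hm]; congr 1; omega), if_pos (by omega)]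
  congr 2
  omega

lemma Diag.coeff' {n : ℕ} (hn : 2 ≤ n) {γ : ℕ → ℝ} {T : ZeroSum n →ₗ[ℝ] ZeroSum n}
    (h : Diag γ T) (g : ZeroSum n) (k : ℕ) :
    (T g : ℝ[X]).coeff k = γ (n - k) * (g : ℝ[X]).coeff k :=
  T_coeffs hn T _ h.diagonalWith g k

/-- the coefficients of `T q_n` -/
lemma Diag.qd_coeff {n : ℕ} (hn : 2 ≤ n) {γ : ℕ → ℝ} {T : ZeroSum n →ₗ[ℝ] ZeroSum n}
    (h : Diag γ T) (i : ℕ) (hi : i ≤ n) : (T (qd n hn) : ℝ[X]).coeff (n - i) =
      -((-1) ^ i * (((i : ℝ) - 1) * γ i * (n.choose i : ℝ))) := by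
  rw [h.coeff' hn, Pool.Agent.Results.MP_31565c_an.Full.qd_coeff n hn i hi,
    show n - (n - i) = i by omega]
  ring

/-- the flip of the signs -/
lemma flip_coeff {n : ℕ} (hn : 2 ≤ n) {γ γ' : ℕ → ℝ} (hγ : ∀ i, γ' i = (-1) ^ i * γ i)
    {T T' : ZeroSum n →ₗ[ℝ] ZeroSum n} (h : Diag γ T) (h' : Diag γ' T') (g : ZeroSum n) :
    (T' g : ℝ[X]) = C ((-1) ^ n) * (T g : ℝ[X]).comp (-X) := by
  ext k
  rw [h'.coeff' hn, coeff_C_mul, Pool.Agent.V11304.Diag.comp_neg_coeff, h.coeff' hn, hγ]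
  by_cases hk : k ≤ n
  · have : ((-1 : ℝ)) ^ n * (-1) ^ k = (-1) ^ (n - k) := by
      rw [← pow_add, show n + k = 2 * k + (n - k) by omega, pow_add, pow_mul]
      simp
    rw [← this]
    ring
  · rw [coeff_eq_zero_of_natDegree_lt (lt_of_le_of_lt g.2.1 (by omega))]
    ring

lemma flip_splits {n : ℕ} (hn : 2 ≤ n) {γ γ' : ℕ → ℝ} (hγ : ∀ i, γ' i = (-1) ^ i * γ i)
    {T T' : ZeroSum n →ₗ[ℝ] ZeroSum n} (h : Diag γ T) (h' : Diag γ' T') (g : ZeroSum n)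
    (hs : (T g : ℝ[X]).Splits) : (T' g : ℝ[X]).Splits := by
  rw [flip_coeff hn hγ h h' g]
  exact hs.comp_neg_X.C_mul _

end Pool.Agent.KS6_51.PS
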