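import Pool.Agent.KS6_51.PS.Nec

set_option autoImplicit false

/-!
# The exact criterion for all `n` and `d`
-/

open Filter Topology Finset Polynomial Pool.Agent.H635Z Pool.Agent.V11304.Diag
open Pool.Agent.Results.MP_0cd67c_ag.ZeroSumPreservers
open Pool.Agent.Results.MP_31565c_an.Full

namespace Pool.Agent.KS6_51.PS

lemma shift_eq (γ : ℕ → ℝ) (n d : ℕ) (g : ℝ[X]) :
    X ^ n * dpol γ n d g = X ^ d * dpol (fun i => if i ≤ d then γ i else 0) n n g := by
  unfold dpol
  rw [mul_sum, mul_sum, min_self]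
  have h1 : (range (min n d + 1)).erase 1 ⊆ (range (n + 1)).erase 1 := by
    intro i hi
    rw [mem_erase, mem_range] at hi ⊢
    omega
  rw [← sum_subset h1]
  · refine sum_congr rfl fun i hi => ?_
    rw [mem_erase, mem_range] at hi
    beta_reduce
    rw [if_pos (by omega)]
    have e1 : n + (d - i) = d + (n - i) := by omega
    calc X ^ n * (C (γ i * g.coeff (n - i)) * X ^ (d - i))
        = C (γ i * g.coeff (n - i)) * X ^ (n + (d - i)) := by rw [pow_add]; ring
      _ = C (γ i * g.coeff (n - i)) * X ^ (d + (n - i)) := by rw [e1]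
      _ = _ := by rw [pow_add]; ring
  · intro i hi hi'
    rw [mem_erase, mem_range] at hi hi'
    beta_reduce
    rw [if_neg (by omega), zero_mul, C_0, zero_mul, mul_zero]

lemma splits_X_pow_mul (n : ℕ) (p : ℝ[X]) : (X ^ n * p).Splits ↔ p.Splits := by
  constructor
  · intro h
    by_cases h0 : p = 0
    · rw [h0]; exact Splits.zero
    · exact h.of_dvd (mul_ne_zero (pow_ne_zero _ X_ne_zero) h0) (Dvd.intro_left _ rfl)
  · intro h
    exact (Splits.X_pow n).mul h

lemma roots_shift (n : ℕ) (p : ℝ[X]) (h0 : p ≠ 0) :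
    (X ^ n * p).roots = Multiset.replicate n 0 + p.roots := by
  rw [roots_mul (mul_ne_zero (pow_ne_zero _ X_ne_zero) h0), roots_X_pow,
    Multiset.nsmul_singleton]

lemma sameSign_shift (n d : ℕ) (hn : 1 ≤ n) (hd : 1 ≤ d) (P Q : ℝ[X])
    (h : X ^ n * P = X ^ d * Q) (h0 : P ≠ 0) : SameSign d P ↔ SameSign n Q := by
  have hQ : Q ≠ 0 := by
    rintro rfl
    rw [mul_zero] at h
    exact (mul_ne_zero (pow_ne_zero _ X_ne_zero) h0) h
  have hr := congrArg Polynomial.roots h
  rw [roots_shift n P h0, roots_shift d Q hQ] at hr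
  have key : ∀ (q : ℝ → Prop) [DecidablePred q], q 0 →
      n + Multiset.card (P.roots.filter q) = d + Multiset.card (Q.roots.filter q) := by
    intro q _ hq
    have h1 := congrArg (fun M => Multiset.card (Multiset.filter q M)) hr
    simp only [Multiset.filter_add, Multiset.card_add] at h1
    have h2 : ∀ k : ℕ, Multiset.filter q (Multiset.replicate k 0) = Multiset.replicate k 0 := by
      intro k
      rw [Multiset.filter_eq_self]
      intro a ha
      rw [Multiset.eq_of_mem_replicate ha]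
      exact hq
    rw [h2, h2, Multiset.card_replicate, Multiset.card_replicate] at h1
    exact h1
  have h1 := key (fun x => 0 ≤ x) le_rfl
  have h2 := key (fun x => x ≤ 0) le_rfl
  unfold SameSign
  constructor
  · rintro (h | h)
    · left; omega
    · right; omega
  · rintro (h | h)
    · left; omega
    · right; omega

lemma allSameSign_shift (n d : ℕ) (P Q : ℝ[X]) (h : X ^ n * P = X ^ d * Q)
    (hs : AllSameSign P) : AllSameSign Q := by
  by_cases h0 : Q = 0
  · left; rw [h0]; simp
  have hP : P ≠ 0 := by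
    rintro rfl
    rw [mul_zero] at h
    exact (mul_ne_zero (pow_ne_zero _ X_ne_zero) h0) h.symm
  have hr := congrArg Polynomial.roots h
  rw [roots_shift n P hP, roots_shift d Q h0] at hr
  have key : ∀ x ∈ Q.roots, x = 0 ∨ x ∈ P.roots := by
    intro x hx
    have h1 : x ∈ Multiset.replicate n (0 : ℝ) + P.roots := by
      rw [hr]
      exact Multiset.mem_add.mpr (Or.inr hx)
    rcases Multiset.mem_add.mp h1 with h2 | h2
    · exact Or.inl (Multiset.eq_of_mem_replicate h2)
    · exact Or.inr h2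
  rcases hs with hs | hs
  · left
    intro x hx
    rcases key x hx with h1 | h1
    · exact h1.ge
    · exact hs x h1
  · right
    intro x hx
    rcases key x hx with h1 | h1
    · exact h1.le
    · exact hs x h1

lemma pres_shift (n d : ℕ) (hn : 1 ≤ n) (hd : 1 ≤ d) (γ : ℕ → ℝ)
    (T : ZeroSum n →ₗ[ℝ] ZeroSum d) (hT : Diag γ T) : IsPreserver T ↔
      IsPreserver (diagMap (fun i => if i ≤ d then γ i else 0) n n hn) := by
  obtain rfl : T = diagMap γ n d hd := hT.unique hn (diag_diagMap γ n d hd)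
  have hshift : ∀ g : ZeroSum n, X ^ n * ((diagMap γ n d hd g : ZeroSum d) : ℝ[X]) =
      X ^ d * ((diagMap (fun i => if i ≤ d then γ i else 0) n n hn g : ZeroSum n) : ℝ[X]) :=
    fun g => shift_eq γ n d g
  have hs : ∀ g : ZeroSum n, OnlyRealRoots ((diagMap γ n d hd g : ZeroSum d) : ℝ[X]) ↔
      OnlyRealRoots ((diagMap (fun i => if i ≤ d then γ i else 0) n n hn g : ZeroSum n) :
        ℝ[X]) := by
    intro g
    rw [splits_iff_only, splits_iff_only, ← splits_X_pow_mul n, hshift, splits_X_pow_mul]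
  unfold IsPreserver
  simp only [hs]

/-- **The exact criterion for all `n` and `d`.** -/
theorem gen_iff (n d : ℕ) (hn : 1 ≤ n) (hd : 1 ≤ d) (γ : ℕ → ℝ)
    (T : ZeroSum n →ₗ[ℝ] ZeroSum d) (hT : Diag γ T) :
    (γ 0 ≠ 0 → (IsPreserver T ↔ (OnlyRealRoots (T ⟨g0 n, g0_mem n hn⟩ : ℝ[X]) ∧
      SameSign d (T ⟨g0 n, g0_mem n hn⟩ : ℝ[X])))) ∧
    (γ 0 = 0 → (IsPreserver T ↔ (OnlyRealRoots (T ⟨g0 n, g0_mem n hn⟩ : ℝ[X]) ∧
      AllSameSign (T ⟨g0 n, g0_mem n hn⟩ : ℝ[X])))) := by
  obtain rfl : T = diagMap γ n d hd := hT.unique hn (diag_diagMap γ n d hd)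
  rcases Nat.lt_or_ge n 2 with hn2 | hn2
  · obtain rfl : n = 1 := by omega
    have h1 : ∀ g : ZeroSum 1, ((diagMap γ 1 d hd g : ZeroSum d) : ℝ[X]) =
        C (γ 0 * (g : ℝ[X]).coeff 1) * X ^ d := by
      intro g
      show dpol γ 1 d g = _
      unfold dpol
      have : (range (min 1 d + 1)).erase 1 = {0} := by
        rw [min_eq_left hd]; decide
      rw [this, sum_singleton, Nat.sub_zero, Nat.sub_zero]
    have hpres : IsPreserver (diagMap γ 1 d hd) := by
      intro g _
      rw [splits_iff_only, h1]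
      exact (Splits.X_pow d).C_mul _
    refine ⟨fun h0 => ⟨fun _ => ⟨?_, ?_⟩, fun _ => hpres⟩,
      fun h0 => ⟨fun _ => ⟨?_, ?_⟩, fun _ => hpres⟩⟩
    · rw [splits_iff_only, h1]
      exact (Splits.X_pow d).C_mul _
    · left
      rw [h1]
      have h2 : (g0 1).coeff 1 = 1 := by
        unfold g0; simp
      show d - 1 ≤ Multiset.card ((C (γ 0 * (g0 1).coeff 1) * X ^ d : ℝ[X]).roots.filter
        (fun x => 0 ≤ x))
      rw [h2, mul_one, roots_C_mul _ h0, roots_X_pow, Multiset.nsmul_singleton]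
      rw [Multiset.filter_eq_self.mpr (by
        intro a ha
        rw [Multiset.eq_of_mem_replicate ha]), Multiset.card_replicate]
      omega
    · rw [splits_iff_only, h1]
      exact (Splits.X_pow d).C_mul _
    · left
      rw [h1, h0, zero_mul, C_0, zero_mul]
      simp
  · set γ' : ℕ → ℝ := fun i => if i ≤ d then γ i else 0 with hγ'
    have hshift : ∀ g : ZeroSum n, X ^ n * ((diagMap γ n d hd g : ZeroSum d) : ℝ[X]) =
        X ^ d * ((diagMap γ' n n (by omega) g : ZeroSum n) : ℝ[X]) := fun g => shift_eq γ n d g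
    have hs : ∀ g : ZeroSum n, OnlyRealRoots ((diagMap γ n d hd g : ZeroSum d) : ℝ[X]) ↔
        OnlyRealRoots ((diagMap γ' n n (by omega : 1 ≤ n) g : ZeroSum n) : ℝ[X]) := by
      intro g
      rw [splits_iff_only, splits_iff_only, ← splits_X_pow_mul n, hshift, splits_X_pow_mul]
    have hpres : IsPreserver (diagMap γ n d hd) ↔
        IsPreserver (diagMap γ' n n (by omega : 1 ≤ n)) := by
      unfold IsPreserver
      simp only [hs]
    have hlib := Pool.Agent.Results.MP_31565c_an.Full.result n hn2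
      (diagMap γ' n n (by omega : 1 ≤ n)) _ (diag_diagMap γ' n n (by omega)).diagonalWith
    simp only [Nat.sub_self] at hlib
    have hγ0 : γ' 0 = γ 0 := by rw [hγ']; simp
    rw [hγ0] at hlib
    have hqd : qd n hn2 = ⟨g0 n, g0_mem n hn⟩ := rfl
    rw [hqd] at hlib
    have hg := hshift ⟨g0 n, g0_mem n hn⟩
    constructor
    · intro h0
      rw [hpres, hlib.1 h0, hs, sameSign_shift n d hn hd _ _ hg ?_]
      intro hcon
      have h1 := (diag_diagMap γ n d hd).coeff hn ⟨g0 n, g0_mem n hn⟩ 0 (by omega)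
      rw [hcon, coeff_zero, if_pos ⟨by omega, by norm_num⟩, Nat.sub_zero] at h1
      have h2 := Pool.Agent.Results.MP_31565c_an.Full.qd_coeff_ne n hn2 n le_rfl (by omega)
      rcases mul_eq_zero.mp h1.symm with h3 | h3
      · exact h0 h3
      · exact h2 h3
    · intro h0
      rw [hpres, hlib.2 h0, hs]
      constructor
      · rintro ⟨h1, h2⟩
        exact ⟨h1, allSameSign_shift d n _ _ hg.symm h2⟩
      · rintro ⟨h1, h2⟩
        exact ⟨h1, allSameSign_shift n d _ _ hg h2⟩

end Pool.Agent.KS6_51.PS
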