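import Pool.Agent.KS6_51.PS.Suf2

set_option autoImplicit false

/-!
# Necessity
-/

open Filter Topology Finset Polynomial Pool.Agent.H635Z Pool.Agent.V11304.Diag
open Pool.Agent.Results.MP_0cd67c_ag.ZeroSumPreservers
open Pool.Agent.Results.MP_31565c_an.Full

namespace Pool.Agent.KS6_51.PS

lemma GP_map_mul (t : ℝ) (M : Multiset ℝ) (i : ℕ) :
    (GP (M.map fun u => t * u)).coeff i = t ^ i * (GP M).coeff i := by
  induction M using Multiset.induction_on generalizing i with
  | empty =>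
    simp only [GP, Multiset.map_zero, Multiset.prod_zero, coeff_one]
    split_ifs with h
    · rw [h]; simp
    · simp
  | cons u M ih =>
    rw [Multiset.map_cons, GP_cons, GP_cons]
    rcases i with _ | i
    · rw [lin_coeff_zero, lin_coeff_zero, ih]
    · rw [lin_coeff, lin_coeff, ih, ih, pow_succ]; ring

lemma LM_eq (M : Multiset ℝ) : LM M = GP (M.map fun u => (-1) * u) := by
  unfold LM GP
  rw [Multiset.map_map]
  congr 2
  funext u
  simp only [Function.comp, neg_mul, one_mul, C_neg]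
  ring

lemma GP_eps (ε : ℝ) (M : Multiset ℝ) (i : ℕ) :
    (GP (M.map fun u => ε * u)).coeff i = (-ε) ^ i * (LM M).coeff i := by
  rw [LM_eq, GP_map_mul, GP_map_mul, ← mul_assoc, ← mul_pow]
  congr 2
  ring

lemma split_one (ρ : Multiset ℝ) (n : ℕ) (hn : 1 ≤ n) (hcard : Multiset.card ρ = n)
    (h : n - 1 ≤ Multiset.card (ρ.filter (fun x => 0 ≤ x))) (hsum : ρ.sum = 0) :
    ∃ M : Multiset ℝ, (∀ u ∈ M, 0 ≤ u) ∧ ρ = (-M.sum) ::ₘ M := by
  have hkey : ∃ a ∈ ρ, ∀ u ∈ ρ.erase a, 0 ≤ u := by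
    by_cases hall : ∀ u ∈ ρ, 0 ≤ u
    · have hpos : 0 < Multiset.card ρ := by omega
      obtain ⟨a, ha⟩ := Multiset.card_pos_iff_exists_mem.mp hpos
      exact ⟨a, ha, fun u hu => hall u (Multiset.mem_of_mem_erase hu)⟩
    · push Not at hall
      obtain ⟨a, ha, ha0⟩ := hall
      refine ⟨a, ha, fun u hu => ?_⟩
      by_contra hcon
      have h1 := Multiset.filter_add_not (fun x : ℝ => 0 ≤ x) ρ
      have h2 := congrArg Multiset.card h1
      rw [Multiset.card_add, hcard] at h2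
      have h3 : (a ::ₘ u ::ₘ 0 : Multiset ℝ) ≤ ρ.filter (fun x : ℝ => ¬ 0 ≤ x) := by
        have e1 : ρ = a ::ₘ ρ.erase a := (Multiset.cons_erase ha).symm
        have e2 : ρ.erase a = u ::ₘ (ρ.erase a).erase u := (Multiset.cons_erase hu).symm
        rw [e1, e2, Multiset.filter_cons_of_pos (p := fun x : ℝ => ¬ 0 ≤ x) _ (not_le.mpr ha0),
          Multiset.filter_cons_of_pos (p := fun x : ℝ => ¬ 0 ≤ x) _ hcon]
        exact Multiset.cons_le_cons a (Multiset.cons_le_cons u (Multiset.zero_le _))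
      have h4 := Multiset.card_le_card h3
      rw [Multiset.card_cons, Multiset.card_cons, Multiset.card_zero] at h4
      omega
  obtain ⟨a, ha, hM⟩ := hkey
  refine ⟨ρ.erase a, hM, ?_⟩
  have h1 : ρ.sum = a + (ρ.erase a).sum := by
    conv_lhs => rw [← Multiset.cons_erase ha, Multiset.sum_cons]
  have h2 : -(ρ.erase a).sum = a := by linarith
  rw [h2, Multiset.cons_erase ha]

/-- **The key step of necessity.** -/
lemma nec_one (γ : ℕ → ℝ) (m : ℕ) (hm : m = 0 ∨ 2 ≤ m) (hγm : γ m ≠ 0)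
    (hlt : ∀ i < m, i ≠ 1 → γ i = 0) (n : ℕ) (hn : 2 ≤ n) (hmn : m + 1 ≤ n)
    (T : ZeroSum n →ₗ[ℝ] ZeroSum n) (hT : Diag γ T) (hpres : IsPreserver T) :
    ∃ ε : ℝ, (ε = 1 ∨ ε = -1) ∧ ∃ (c s : ℝ) (M : Multiset ℝ), (∀ u ∈ M, 0 ≤ u) ∧
      Adm m s M.sum ∧ ∀ i ≤ n,
        ε ^ i * (((i : ℝ) - 1) * γ i * (n.choose i : ℝ)) = (RP c m s M).coeff i := by
  have hlib := Pool.Agent.Results.MP_31565c_an.Full.result n hn T _ hT.diagonalWith
  simp only [Nat.sub_self] at hlib
  set p : ℝ[X] := (T (qd n hn) : ℝ[X]) with hp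
  have hpd : p.natDegree ≤ n := (T (qd n hn)).2.1
  have hpc : ∀ i ≤ n, p.coeff (n - i) = -((-1) ^ i * (((i : ℝ) - 1) * γ i * (n.choose i : ℝ))) :=
    fun i hi => hT.qd_coeff hn i hi
  have hm1 : ((m : ℝ) - 1) ≠ 0 := by
    intro h
    have : (m : ℝ) = 1 := by linarith
    have : m = 1 := by exact_mod_cast this
    omega
  have hchm : (n.choose m : ℝ) ≠ 0 := by exact_mod_cast (Nat.choose_pos (by omega)).ne'
  have htop : p.coeff (n - m) ≠ 0 := by
    rw [hpc m (by omega)]
    exact neg_ne_zero.mpr (mul_ne_zero (pow_ne_zero _ (by norm_num))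
      (mul_ne_zero (mul_ne_zero hm1 hγm) hchm))
  have hdeg : p.natDegree = n - m := by
    apply natDegree_eq_of_le_of_coeff_ne_zero _ htop
    rw [natDegree_le_iff_coeff_eq_zero]
    intro k hk
    by_cases hkn : k ≤ n
    · have e : k = n - (n - k) := by omega
      rw [e, hpc _ (by omega)]
      by_cases h1 : n - k = 1
      · rw [h1]; simp
      · rw [hlt (n - k) (by omega) h1]; simp
    · exact coeff_eq_zero_of_natDegree_lt (by omega)
  -- real-rootedness
  have hsp : p.Splits := by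
    have : IsPreserver T → OnlyRealRoots p := by
      intro h
      by_cases hγ0 : γ 0 = 0
      · exact ((hlib.2 hγ0).mp h).1
      · exact ((hlib.1 hγ0).mp h).1
    exact (splits_iff_only _).mp (this hpres)
  have hcard : Multiset.card p.roots = n - m := by rw [← hsp.natDegree_eq_card_roots, hdeg]
  have hrefl : reflect (n - m) p = C p.leadingCoeff * LM p.roots := by
    conv_lhs => rw [hsp.eq_prod_roots]
    rw [reflect_C_mul, ← reflect_LM, hcard]
  have hlc : p.leadingCoeff = -((-1) ^ m * (((m : ℝ) - 1) * γ m * (n.choose m : ℝ))) := by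
    rw [leadingCoeff, hdeg, hpc m (by omega)]
  have hco : ∀ i, m + i ≤ n → (-1 : ℝ) ^ i * ((((m + i : ℕ) : ℝ) - 1) * γ (m + i) *
      (n.choose (m + i) : ℝ)) = ((m : ℝ) - 1) * γ m * (n.choose m : ℝ) * (LM p.roots).coeff i := by
    intro i hi
    have h1 : (reflect (n - m) p).coeff i = p.leadingCoeff * (LM p.roots).coeff i := by
      rw [hrefl, coeff_C_mul]
    rw [coeff_reflect, revAt_le (by omega), show n - m - i = n - (m + i) by omega,
      hpc _ hi, hlc, pow_add] at h1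
    have h2 : ((-1 : ℝ) ^ m) * (-1) ^ m = 1 := by rw [← mul_pow]; simp
    linear_combination (-((-1 : ℝ) ^ m)) * h1 + (((m : ℝ) - 1) * γ m * (n.choose m : ℝ) *
      (LM p.roots).coeff i - (-1 : ℝ) ^ i * ((((m + i : ℕ) : ℝ) - 1) * γ (m + i) *
      (n.choose (m + i) : ℝ))) * h2
  have hco' : ∀ ε : ℝ, (ε = 1 ∨ ε = -1) → ∀ i, m + i ≤ n →
      ε ^ (m + i) * ((((m + i : ℕ) : ℝ) - 1) * γ (m + i) * (n.choose (m + i) : ℝ)) =
      ε ^ m * (((m : ℝ) - 1) * γ m * (n.choose m : ℝ)) *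
        (GP (p.roots.map fun u => ε * u)).coeff i := by
    intro ε hε i hi
    have h1 := hco i hi
    rw [GP_eps]
    have h2 : ((-ε) ^ i) * (-1) ^ i = ε ^ i := by rw [← mul_pow]; congr 1; ring
    rw [pow_add]
    linear_combination (ε ^ m * (-ε) ^ i) * h1 - (ε ^ m * ((((m + i : ℕ) : ℝ) - 1) * γ (m + i) *
      (n.choose (m + i) : ℝ))) * h2
  rcases hm with hm | hm
  · -- the nondegenerate case
    subst hm
    rw [Nat.sub_zero] at hcard hdeg
    have hsign := ((hlib.1 hγm).mp hpres).2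
    have hsum : p.roots.sum = 0 := by
      have h1 := hco 1 (by omega)
      rw [(LM_coeffs p.roots).2.1] at h1
      norm_num at h1
      rcases h1 with h1 | h1
      · exact absurd h1 hγm
      · exact h1
    have fin : ∀ ε : ℝ, (ε = 1 ∨ ε = -1) →
        n - 1 ≤ Multiset.card ((p.roots.map fun u => ε * u).filter (fun x => 0 ≤ x)) →
        ∃ (c s : ℝ) (M : Multiset ℝ), (∀ u ∈ M, 0 ≤ u) ∧ Adm 0 s M.sum ∧ ∀ i ≤ n,
        ε ^ i * (((i : ℝ) - 1) * γ i * (n.choose i : ℝ)) = (RP c 0 s M).coeff i := by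
      intro ε hε h
      obtain ⟨M, hM, hρ⟩ := split_one (p.roots.map fun u => ε * u) n (by omega)
        (by rw [Multiset.card_map, hcard]) h (by
          rw [Multiset.sum_map_mul_left, Multiset.map_id', hsum, mul_zero])
      refine ⟨((0 : ℕ) - 1) * γ 0 * (n.choose 0 : ℝ), M.sum, M, hM, Or.inl ⟨rfl, rfl⟩, ?_⟩
      intro i hi
      have h1 := hco' ε hε i (by omega)
      rw [zero_add, hρ, GP_cons, pow_zero, one_mul] at h1
      rw [h1]
      have h2 := RP_coeff (((0 : ℕ) - 1) * γ 0 * (n.choose 0 : ℝ)) 0 M.sum M i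
      rw [zero_add] at h2
      rw [h2]
      have h3 : (1 + C (-M.sum) * X : ℝ[X]) = 1 - C M.sum * X := by rw [C_neg]; ring
      rw [h3]
    rcases hsign with h | h
    · refine ⟨1, Or.inl rfl, fin 1 (Or.inl rfl) ?_⟩
      simpa using h
    · refine ⟨-1, Or.inr rfl, fin (-1) (Or.inr rfl) ?_⟩
      rw [Multiset.filter_map, Multiset.card_map]
      refine h.trans (le_of_eq ?_)
      congr 1
      apply Multiset.filter_congr
      intro x _
      simp
  · have hγ0 : γ 0 = 0 := hlt 0 (by omega) (by norm_num)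
    have hsign := ((hlib.2 hγ0).mp hpres).2
    have fin : ∀ ε : ℝ, (ε = 1 ∨ ε = -1) → (∀ u ∈ p.roots, 0 ≤ ε * u) →
        ∃ (c s : ℝ) (M : Multiset ℝ), (∀ u ∈ M, 0 ≤ u) ∧ Adm m s M.sum ∧ ∀ i ≤ n,
        ε ^ i * (((i : ℝ) - 1) * γ i * (n.choose i : ℝ)) = (RP c m s M).coeff i := by
      intro ε hε h
      refine ⟨ε ^ m * (((m : ℝ) - 1) * γ m * (n.choose m : ℝ)), 0,
        p.roots.map fun u => ε * u, ?_, Or.inr ⟨hm, rfl⟩, ?_⟩
      · intro u hu
        rw [Multiset.mem_map] at hu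
        obtain ⟨v, hv, rfl⟩ := hu
        exact h v hv
      · intro i hi
        rcases Nat.lt_or_ge i m with him | him
        · rw [RP_coeff_lt _ _ _ _ _ him]
          by_cases h1 : i = 1
          · rw [h1]; simp
          · rw [hlt i him h1]; simp
        · obtain ⟨j, rfl⟩ : ∃ j, i = m + j := ⟨i - m, by omega⟩
          rw [RP_coeff, hco' ε hε j hi, C_0, zero_mul, sub_zero, one_mul]
    rcases hsign with h | h
    · refine ⟨1, Or.inl rfl, fin 1 (Or.inl rfl) ?_⟩
      intro u hu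
      have := h u hu
      linarith
    · refine ⟨-1, Or.inr rfl, fin (-1) (Or.inr rfl) ?_⟩
      intro u hu
      have := h u hu
      linarith

end Pool.Agent.KS6_51.PS
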