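import Pool.Agent.KS6_51.PS.Gen

set_option autoImplicit false

/-!
# Necessity, the limit
-/

open Filter Topology Finset Polynomial Pool.Agent.H635Z Pool.Agent.V11304.Diag
open Pool.Agent.Results.MP_0cd67c_ag.ZeroSumPreservers
open Pool.Agent.Results.MP_31565c_an.Full

namespace Pool.Agent.KS6_51.PS

lemma RP_scale (c : ℝ) (m : ℕ) (s : ℝ) (M : Multiset ℝ) (t : ℝ) (i : ℕ) :
    (RP (c * t ^ m) m (s * t) (M.map fun u => t * u)).coeff i = (RP c m s M).coeff i * t ^ i := by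
  rcases Nat.lt_or_ge i m with h | h
  · rw [RP_coeff_lt _ _ _ _ _ h, RP_coeff_lt _ _ _ _ _ h, zero_mul]
  · obtain ⟨j, rfl⟩ : ∃ j, i = m + j := ⟨i - m, by omega⟩
    rw [RP_coeff, RP_coeff]
    rcases j with _ | j
    · rw [lin'_coeff_zero, lin'_coeff_zero, GP_zero, GP_zero]; ring
    · rw [lin'_coeff, lin'_coeff, GP_map_mul, GP_map_mul, pow_add, pow_succ]; ring

lemma RP_coeff_m (c : ℝ) (m : ℕ) (s : ℝ) (M : Multiset ℝ) : (RP c m s M).coeff m = c := by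
  have := RP_coeff c m s M 0
  rw [add_zero] at this
  rw [this, lin'_coeff_zero, GP_zero, mul_one]

lemma choose_le_real (n i : ℕ) : (n.choose i : ℝ) ≤ (n : ℝ) ^ i := by
  exact_mod_cast Nat.choose_le_pow n i

lemma sum_bound (γ : ℕ → ℝ) (m : ℕ) (hm : m = 0 ∨ 2 ≤ m) (hγm : γ m ≠ 0) :
    ∃ B : ℝ, ∀ (n : ℕ), m + 2 ≤ n → ∀ (ε c s : ℝ) (M : Multiset ℝ), (ε = 1 ∨ ε = -1) →
      (∀ u ∈ M, 0 ≤ u) → Adm m s M.sum → (∀ i ≤ m + 2,
        ε ^ i * (((i : ℝ) - 1) * γ i * (n.choose i : ℝ)) = (RP c m s M).coeff i) →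
      M.sum ≤ B * n := by
  rcases hm with rfl | hm
  · refine ⟨|γ 2 / γ 0| + 1, ?_⟩
    intro n hn ε c s M hε hM hadm hco
    have hs : s = M.sum := by
      rcases hadm with ⟨_, h⟩ | ⟨h, _⟩
      · exact h
      · omega
    have h0 := hco 0 (by omega)
    have h2 := hco 2 (by omega)
    rw [RP_coeff_m] at h0
    have h3 := RP_coeff c 0 s M 2
    rw [zero_add, lin'_coeff, GP_one, hs] at h3
    rw [hs] at h2
    rw [h3] at h2
    have hε2 : ε ^ 2 = 1 := by rcases hε with rfl | rfl <;> norm_num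
    rw [hε2] at h2
    have hGP := GP_two_le M
    norm_num at h0 h2
    -- h0 : - γ 0 = c, h2 : γ 2 * choose n 2 = c * (GP_2 - S * S)
    set S := M.sum with hS
    have hS0 : 0 ≤ S := Multiset.sum_nonneg hM
    have hch : (n.choose 2 : ℝ) ≤ (n : ℝ) ^ 2 / 2 := by
      rw [Nat.cast_choose_two]
      nlinarith [Nat.cast_nonneg (α := ℝ) n]
    have h4 : S ^ 2 / 2 ≤ |γ 2 / γ 0| * (n.choose 2 : ℝ) := by
      have h5 : S * S - (GP M).coeff 2 = γ 2 / γ 0 * (n.choose 2 : ℝ) := by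
        field_simp
        rw [← h0] at h2
        linear_combination -h2
      have h6 : γ 2 / γ 0 * (n.choose 2 : ℝ) ≤ |γ 2 / γ 0| * (n.choose 2 : ℝ) :=
        mul_le_mul_of_nonneg_right (le_abs_self _) (Nat.cast_nonneg _)
      nlinarith
    have h7 : S ^ 2 ≤ |γ 2 / γ 0| * (n : ℝ) ^ 2 := by
      have := mul_le_mul_of_nonneg_left hch (abs_nonneg (γ 2 / γ 0))
      linarith
    have h8 : S ^ 2 ≤ ((|γ 2 / γ 0| + 1) * n) ^ 2 := by
      refine h7.trans ?_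
      rw [mul_pow]
      apply mul_le_mul_of_nonneg_right _ (by positivity)
      nlinarith [abs_nonneg (γ 2 / γ 0)]
    exact (abs_le_of_sq_le_sq' h8 (by positivity)).2
  · refine ⟨|((m + 1 : ℕ) - 1 : ℝ) * γ (m + 1)| / |((m : ℝ) - 1) * γ m|, ?_⟩
    intro n hn ε c s M hε hM hadm hco
    have hs : s = 0 := by
      rcases hadm with ⟨h, _⟩ | ⟨_, h⟩
      · omega
      · exact h
    have h0 := hco m (by omega)
    have h1 := hco (m + 1) (by omega)
    rw [RP_coeff_m] at h0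
    rw [RP_coeff, lin'_coeff, GP_one, hs, zero_mul, sub_zero] at h1
    set S := M.sum with hS
    have hS0 : 0 ≤ S := Multiset.sum_nonneg hM
    have hεa : ∀ k, |ε ^ k| = 1 := by
      intro k
      rcases hε with rfl | rfl <;> simp
    have e0 := congrArg abs h0
    have e1 := congrArg abs h1
    rw [abs_mul, hεa, one_mul, abs_mul, Nat.abs_cast] at e0 e1
    rw [abs_mul c S, abs_of_nonneg hS0, ← e0] at e1
    have hm1 : ((m : ℝ) - 1) ≠ 0 := by
      have : (2 : ℝ) ≤ m := by exact_mod_cast hm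
      intro h
      linarith
    have hpos : 0 < |((m : ℝ) - 1) * γ m| := abs_pos.mpr (mul_ne_zero hm1 hγm)
    have hcp : (0 : ℝ) < (n.choose m : ℝ) := by exact_mod_cast Nat.choose_pos (by omega)
    have hch : (n.choose (m + 1) : ℝ) ≤ (n.choose m : ℝ) * n := by
      have h2 : n.choose (m + 1) * (m + 1) = n.choose m * (n - m) := Nat.choose_succ_right_eq n m
      have h3 : n.choose (m + 1) ≤ n.choose m * n := by
        calc n.choose (m + 1) ≤ n.choose (m + 1) * (m + 1) := Nat.le_mul_of_pos_right _ (by omega)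
          _ = n.choose m * (n - m) := h2
          _ ≤ n.choose m * n := Nat.mul_le_mul_left _ (by omega)
      exact_mod_cast h3
    rw [div_mul_eq_mul_div, le_div_iff₀ hpos]
    have h5 : |((m : ℝ) - 1) * γ m| * (n.choose m : ℝ) * S ≤
        |((m + 1 : ℕ) - 1 : ℝ) * γ (m + 1)| * ((n.choose m : ℝ) * n) := by
      rw [← e1]
      exact mul_le_mul_of_nonneg_left hch (abs_nonneg _)
    have h6 : (S * |((m : ℝ) - 1) * γ m|) * (n.choose m : ℝ) ≤
        (|((m + 1 : ℕ) - 1 : ℝ) * γ (m + 1)| * n) * (n.choose m : ℝ) := by linarith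
    exact le_of_mul_le_mul_right h6 hcp

/-- the key step for all `n` and `d` -/
lemma nec_two (γ : ℕ → ℝ) (m : ℕ) (hm : m = 0 ∨ 2 ≤ m) (hγm : γ m ≠ 0)
    (hlt : ∀ i < m, i ≠ 1 → γ i = 0) (n d : ℕ) (hn : 2 ≤ n) (hmn : m + 1 ≤ n) (hd : 1 ≤ d)
    (hmd : m ≤ d) (T : ZeroSum n →ₗ[ℝ] ZeroSum d) (hT : Diag γ T) (hpres : IsPreserver T) :
    ∃ ε : ℝ, (ε = 1 ∨ ε = -1) ∧ ∃ (c s : ℝ) (M : Multiset ℝ), (∀ u ∈ M, 0 ≤ u) ∧
      Adm m s M.sum ∧ ∀ i ≤ n, i ≤ d →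
        ε ^ i * (((i : ℝ) - 1) * γ i * (n.choose i : ℝ)) = (RP c m s M).coeff i := by
  have h1 := (pres_shift n d (by omega) hd γ T hT).mp hpres
  obtain ⟨ε, hε, c, s, M, hM, hadm, hco⟩ := nec_one (fun i => if i ≤ d then γ i else 0) m hm
    (by rw [if_pos hmd]; exact hγm) (by
      intro i hi hi1
      rw [if_pos (by omega)]
      exact hlt i hi hi1) n hn hmn _ (diag_diagMap _ n n (by omega)) h1
  refine ⟨ε, hε, c, s, M, hM, hadm, fun i hi hid => ?_⟩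
  have h2 := hco i hi
  beta_reduce at h2
  rw [if_pos hid] at h2
  exact h2

/-- **Necessity.** -/
theorem nec_lim (γ : ℕ → ℝ) (h : ∀ N : ℕ, ∃ n ≥ N, ∃ d ≥ N,
      ∀ T : ZeroSum n →ₗ[ℝ] ZeroSum d, Diag γ T → IsPreserver T) :
    ∃ (ε c α s : ℝ) (x : ℕ → ℝ) (m : ℕ), (ε = 1 ∨ ε = -1) ∧ 0 ≤ α ∧ (∀ k, 0 ≤ x k) ∧
      Summable x ∧ Adm m s (α + ∑' k, x k) ∧ ∀ z : ℂ,
        HasSum (fun i => ((ε ^ i * bco γ i : ℝ) : ℂ) * z ^ i)
          ((c : ℂ) * (z ^ m * ((1 - (s : ℂ) * z) * Gf α x z))) := by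
  by_cases hall : ∀ i, i ≠ 1 → γ i = 0
  · refine ⟨1, 0, 0, 0, fun _ => 0, 2, Or.inl rfl, le_rfl, fun _ => le_rfl, summable_zero,
      Or.inr ⟨le_rfl, rfl⟩, fun z => ?_⟩
    have h1 : ∀ i, bco γ i = 0 := by
      intro i
      unfold bco
      by_cases hi : i = 1
      · rw [hi]; simp
      · rw [hall i hi]; simp
    simp only [h1]
    simp
  push Not at hall
  classical
  have hP : ∃ i, i ≠ 1 ∧ γ i ≠ 0 := hall
  set m := Nat.find hP with hmdef
  obtain ⟨hm1, hγm⟩ := Nat.find_spec hP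
  rw [← hmdef] at hm1 hγm
  have hlt : ∀ i < m, i ≠ 1 → γ i = 0 := by
    intro i hi hi1
    by_contra hcon
    exact Nat.find_min hP hi ⟨hi1, hcon⟩
  have hm : m = 0 ∨ 2 ≤ m := by omega
  set Q : ℝ → ℕ → Prop := fun ε N => ∃ n : ℕ, N ≤ n ∧ m + 2 ≤ n ∧ ∃ (c s : ℝ) (M : Multiset ℝ),
    (∀ u ∈ M, 0 ≤ u) ∧ Adm m s M.sum ∧ ∀ i ≤ N + (m + 2),
        ε ^ i * (((i : ℝ) - 1) * γ i * (n.choose i : ℝ)) = (RP c m s M).coeff i with hQ
  have hQmono : ∀ ε N N', N ≤ N' → Q ε N' → Q ε N := by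
    rintro ε N N' hNN ⟨n, h1, h2, c, s, M, h3, h4, h5⟩
    exact ⟨n, hNN.trans h1, h2, c, s, M, h3, h4, fun i hi => h5 i (by omega)⟩
  have h1 : ∀ N, Q 1 N ∨ Q (-1) N := by
    intro N
    obtain ⟨n, hn, d, hd, h2⟩ := h (N + (m + 2))
    obtain ⟨ε, hε, c, s, M, h3, h4, h5⟩ := nec_two γ m hm hγm hlt n d (by omega) (by omega)
      (by omega) (by omega) (diagMap γ n d (by omega)) (diag_diagMap _ _ _ _)
      (h2 _ (diag_diagMap _ _ _ _))
    have h6 : Q ε N := ⟨n, by omega, by omega, c, s, M, h3, h4, fun i hi =>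
      h5 i (by omega) (by omega)⟩
    rcases hε with rfl | rfl
    · exact Or.inl h6
    · exact Or.inr h6
  obtain ⟨ε, hε, hνQ⟩ : ∃ ε : ℝ, (ε = 1 ∨ ε = -1) ∧ ∀ N, Q ε N := by
    by_cases h2 : ∀ N, Q 1 N
    · exact ⟨1, Or.inl rfl, h2⟩
    · push Not at h2
      obtain ⟨N0, hN0⟩ := h2
      refine ⟨-1, Or.inr rfl, fun N => ?_⟩
      rcases h1 (max N N0) with h3 | h3
      · exact absurd (hQmono 1 N0 _ (le_max_right _ _) h3) hN0
      · exact hQmono (-1) N _ (le_max_left _ _) h3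
  choose ν hνge hνm c s M hM hadm hco using hνQ
  obtain ⟨B, hB⟩ := sum_bound γ m hm hγm
  have hν0 : ∀ j, (0 : ℝ) < (ν j : ℝ) := by
    intro j
    have := hνm j
    exact_mod_cast (by omega : 0 < ν j)
  set t : ℕ → ℝ := fun j => 1 / (ν j : ℝ) with ht
  have ht0 : ∀ j, 0 < t j := fun j => one_div_pos.mpr (hν0 j)
  set M' : ℕ → Multiset ℝ := fun j => (M j).map fun u => t j * u with hM'
  have hM'0 : ∀ j, ∀ u ∈ M' j, 0 ≤ u := by
    intro j u hu
    rw [hM', Multiset.mem_map] at hu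
    obtain ⟨v, hv, rfl⟩ := hu
    exact mul_nonneg (ht0 j).le (hM j v hv)
  have hM's : ∀ j, (M' j).sum = t j * (M j).sum := by
    intro j
    rw [hM', Multiset.sum_map_mul_left, Multiset.map_id']
  have hM'B : ∀ j, (M' j).sum ≤ B := by
    intro j
    rw [hM's]
    show 1 / (ν j : ℝ) * (M j).sum ≤ B
    have h3 := hB (ν j) (hνm j) ε (c j) (s j) (M j) hε (hM j) (hadm j)
      (fun i hi => hco j i (by omega))
    rw [one_div, inv_mul_le_iff₀ (hν0 j)]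
    linarith
  obtain ⟨φ, α, x, hφ, hα, hx, hxs, hsum, hprod⟩ := compactness M' hM'0 B hM'B
  set R : ℕ → ℝ[X] := fun j => RP (c (φ j) * t (φ j) ^ m) m (s (φ j) * t (φ j)) (M' (φ j)) with hR
  have hRco : ∀ i j, i ≤ φ j → (R j).coeff i =
      ε ^ i * (((i : ℝ) - 1) * γ i) * (((ν (φ j)).choose i : ℝ) * (1 / (ν (φ j) : ℝ)) ^ i) := by
    intro i j hij
    rw [hR]
    show (RP (c (φ j) * t (φ j) ^ m) m (s (φ j) * t (φ j)) (M' (φ j))).coeff i = _
    rw [hM', RP_scale, ← hco (φ j) i (by omega), ht]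
    ring
  have hνφ : Tendsto (fun j => ν (φ j)) atTop atTop :=
    tendsto_atTop_mono (fun j => hνge (φ j)) hφ.tendsto_atTop
  have hchoose : ∀ i, Tendsto (fun j => ((ν (φ j)).choose i : ℝ) * (1 / (ν (φ j) : ℝ)) ^ i) atTop
      (𝓝 (1 / (i.factorial : ℝ))) := by
    intro i
    have h3 : Tendsto (fun n : ℕ => (n : ℝ) * (1 / (n : ℝ))) atTop (𝓝 1) := by
      refine Tendsto.congr' ?_ tendsto_const_nhds
      filter_upwards [eventually_ge_atTop 1] with n hn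
      have : (n : ℝ) ≠ 0 := by positivity
      field_simp
    have h4 := ProbabilityTheory.tendsto_choose_mul_pow_atTop i h3
    rw [one_pow] at h4
    exact h4.comp hνφ
  have hRlim : ∀ i, Tendsto (fun j => (R j).coeff i) atTop (𝓝 (ε ^ i * bco γ i)) := by
    intro i
    have h3 := (hchoose i).const_mul (ε ^ i * (((i : ℝ) - 1) * γ i))
    have h4 : ε ^ i * (((i : ℝ) - 1) * γ i) * (1 / (i.factorial : ℝ)) = ε ^ i * bco γ i := by
      unfold bco; ring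
    rw [h4] at h3
    refine h3.congr' ?_
    filter_upwards [hφ.tendsto_atTop.eventually_ge_atTop i] with j hj
    exact (hRco i j hj).symm
  -- the scaled constants
  have hclim : Tendsto (fun j => c (φ j) * t (φ j) ^ m) atTop (𝓝 (ε ^ m * bco γ m)) := by
    refine (hRlim m).congr fun j => ?_
    rw [hR]
    exact RP_coeff_m _ _ _ _
  obtain ⟨s', hs1, hs2⟩ : ∃ s' : ℝ, Adm m s' (α + ∑' k, x k) ∧
      Tendsto (fun j => s (φ j) * t (φ j)) atTop (𝓝 s') := by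
    rcases hm with h0 | h0
    · refine ⟨α + ∑' k, x k, Or.inl ⟨h0, rfl⟩, ?_⟩
      refine hsum.congr fun j => ?_
      rw [hM's, mul_comm]
      rcases hadm (φ j) with ⟨_, h3⟩ | ⟨h3, _⟩
      · rw [h3]
      · omega
    · refine ⟨0, Or.inr ⟨h0, rfl⟩, ?_⟩
      refine tendsto_const_nhds.congr fun j => ?_
      rcases hadm (φ j) with ⟨h3, _⟩ | ⟨_, h3⟩
      · omega
      · rw [h3, zero_mul]
  obtain ⟨A1, hA1⟩ := (hclim.abs).bddAbove_range
  obtain ⟨A2, hA2⟩ := (hs2.abs).bddAbove_range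
  have hbdd : Bdd R := by
    refine RP_bdd (fun j => c (φ j) * t (φ j) ^ m) m (fun j => s (φ j) * t (φ j))
      (fun j => M' (φ j)) A1 (max A2 B) (fun j => hA1 ⟨j, rfl⟩)
      (fun j => (hA2 ⟨j, rfl⟩).trans (le_max_left _ _)) (fun j => hM'0 _)
      (fun j => (hM'B _).trans (le_max_right _ _))
  refine ⟨ε, ε ^ m * bco γ m, α, s', x, m, hε, hα, hx, hxs, hs1, fun z => ?_⟩
  refine hasSum_limit R hbdd _ hRlim z _ ?_
  have h5 : ∀ j, aeval z (R j) = ((c (φ j) * t (φ j) ^ m : ℝ) : ℂ) * (z ^ m *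
      ((1 - ((s (φ j) * t (φ j) : ℝ) : ℂ) * z) *
      ((M' (φ j)).map fun u : ℝ => (1 + (u : ℂ) * z)).prod)) := fun j => aeval_RP _ _ _ _ _
  simp only [h5]
  refine Tendsto.mul ((Complex.continuous_ofReal.tendsto _).comp hclim) ?_
  refine Tendsto.const_mul _ (Tendsto.mul ?_ (hprod z))
  exact Tendsto.const_sub _ (((Complex.continuous_ofReal.tendsto _).comp hs2).mul_const _)

end Pool.Agent.KS6_51.PS
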