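import Pool.Agent.KS6_51.PS.Dia

set_option autoImplicit false

/-!
# Sufficiency
-/

open Filter Topology Finset Polynomial Pool.Agent.H635Z Pool.Agent.V11304.Diag
open Pool.Agent.Results.MP_0cd67c_ag.ZeroSumPreservers
open Pool.Agent.Results.MP_31565c_an.Full

namespace Pool.Agent.KS6_51.PS

lemma RP_coeff (c : ℝ) (m : ℕ) (s : ℝ) (M : Multiset ℝ) (i : ℕ) :
    (RP c m s M).coeff (m + i) = c * ((1 - C s * X) * GP M).coeff i := by
  unfold RP
  rw [coeff_C_mul, add_comm m i, coeff_X_pow_mul]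

lemma RP_coeff_lt (c : ℝ) (m : ℕ) (s : ℝ) (M : Multiset ℝ) (i : ℕ) (hi : i < m) :
    (RP c m s M).coeff i = 0 := by
  unfold RP
  rw [coeff_C_mul, coeff_X_pow_mul', if_neg (by omega), mul_zero]

lemma lin'_coeff (s : ℝ) (p : ℝ[X]) (i : ℕ) :
    ((1 - C s * X) * p).coeff (i + 1) = p.coeff (i + 1) - s * p.coeff i := by
  have : (1 - C s * X : ℝ[X]) = 1 + C (-s) * X := by rw [C_neg]; ring
  rw [this, lin_coeff]
  ring

lemma lin'_coeff_zero (s : ℝ) (p : ℝ[X]) : ((1 - C s * X) * p).coeff 0 = p.coeff 0 := by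
  have : (1 - C s * X : ℝ[X]) = 1 + C (-s) * X := by rw [C_neg]; ring
  rw [this, lin_coeff_zero]

/-- the two admissible cases -/
def Adm (m : ℕ) (s : ℝ) (S : ℝ) : Prop := (m = 0 ∧ s = S) ∨ (2 ≤ m ∧ s = 0)

lemma RP_one (c : ℝ) (m : ℕ) (s : ℝ) (M : Multiset ℝ) (h : Adm m s M.sum) :
    (RP c m s M).coeff 1 = 0 := by
  rcases h with ⟨rfl, rfl⟩ | ⟨h, rfl⟩
  · have := RP_coeff c 0 M.sum M 1
    rw [zero_add] at this
    rw [this, lin'_coeff, GP_zero, GP_one]
    ring
  · exact RP_coeff_lt _ _ _ _ _ (by omega)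

lemma RP_sign_zero (c : ℝ) (M : Multiset ℝ) (hM : ∀ u ∈ M, 0 ≤ u) (i : ℕ) (hi : 1 ≤ i) :
    ∃ t : ℝ, 0 ≤ t ∧ (RP c 0 M.sum M).coeff i = - (c * t) := by
  obtain ⟨i, rfl⟩ : ∃ j, i = j + 1 := ⟨i - 1, by omega⟩
  have := RP_coeff c 0 M.sum M (i + 1)
  rw [zero_add] at this
  rw [this, lin'_coeff]
  refine ⟨M.sum * (GP M).coeff i - (GP M).coeff (i + 1), ?_, by ring⟩
  have := GP_step M hM i
  linarith

lemma RP_sign_pos (c : ℝ) (m : ℕ) (M : Multiset ℝ) (hM : ∀ u ∈ M, 0 ≤ u) (i : ℕ) :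
    ∃ t : ℝ, 0 ≤ t ∧ (RP c m 0 M).coeff i = c * t := by
  rcases Nat.lt_or_ge i m with h | h
  · exact ⟨0, le_rfl, by rw [RP_coeff_lt _ _ _ _ _ h, mul_zero]⟩
  · obtain ⟨j, rfl⟩ : ∃ j, i = m + j := ⟨i - m, by omega⟩
    rw [RP_coeff]
    refine ⟨((1 - C 0 * X) * GP M).coeff j, ?_, rfl⟩
    rw [C_0, zero_mul, sub_zero, one_mul]
    exact GP_nonneg M hM j

/-- **Sufficiency for the finite products.** -/
lemma suff_poly (n : ℕ) (hn : 2 ≤ n) (c : ℝ) (m : ℕ) (s : ℝ) (M : Multiset ℝ)
    (hM : ∀ u ∈ M, 0 ≤ u) (hadm : Adm m s M.sum) (γ : ℕ → ℝ)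
    (hγ : ∀ i : ℕ, i ≠ 1 → ((i : ℝ) - 1) * γ i = (i.factorial : ℝ) * (RP c m s M).coeff i)
    (T : ZeroSum n →ₗ[ℝ] ZeroSum n) (hT : Diag γ T) (g : ZeroSum n) (hg : (g : ℝ[X]).Splits) :
    (T g : ℝ[X]).Splits := by
  set R := RP c m s M with hR
  by_cases hc : c = 0
  · have h0 : ∀ i, i ≠ 1 → γ i = 0 := by
      intro i hi
      have h1 := hγ i hi
      have h2 : R = 0 := by rw [hR, hc]; unfold RP; simp
      rw [h2, coeff_zero, mul_zero] at h1
      refine (mul_eq_zero.mp h1).resolve_left ?_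
      intro h3
      apply hi
      have : (i : ℝ) = 1 := by linarith
      exact_mod_cast this
    have h1 : (T g : ℝ[X]) = 0 := by
      ext k
      rw [hT.coeff' hn, coeff_zero]
      by_cases h : n - k = 1
      · have : k = n - 1 := by omega
        rw [this, g.2.2, mul_zero]
      · rw [h0 _ h, zero_mul]
    rw [h1]
    exact Splits.zero
  have hpoly : ∀ i ≤ n, (T (qd n hn) : ℝ[X]).coeff (n - i) =
      -((-1) ^ i * (n.descFactorial i : ℝ) * R.coeff i) := by
    intro i hi
    rw [hT.qd_coeff hn i hi]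
    by_cases h1 : i = 1
    · rw [h1, hR, RP_one c m s M hadm]; simp
    · rw [hγ i h1, Nat.descFactorial_eq_factorial_mul_choose]
      push_cast
      ring
  have heq : (T (qd n hn) : ℝ[X]) = - Hop R (X ^ n) := by
    ext k
    by_cases hk : k ≤ n
    · have e : k = n - (n - k) := by omega
      rw [e, hpoly _ (by omega), coeff_neg, Hop_X_pow_coeff R n _ (by omega)]
    · rw [coeff_eq_zero_of_natDegree_lt (lt_of_le_of_lt (T (qd n hn)).2.1 (by omega)), coeff_neg,
        coeff_eq_zero_of_natDegree_lt (lt_of_le_of_lt (Hop_X_pow_natDegree R n) (by omega)),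
        neg_zero]
  have hsp : (T (qd n hn) : ℝ[X]).Splits := by
    rw [heq]
    exact (Hop_RP_splits c m s M _ (Splits.X_pow n)).neg
  have hreal : OnlyRealRoots (T (qd n hn) : ℝ[X]) := (splits_iff_only _).mpr hsp
  set p : ℝ[X] := (T (qd n hn) : ℝ[X]) with hp
  have hpd : p.natDegree ≤ n := (T (qd n hn)).2.1
  have hflip : ∀ i ≤ n, (C (c * (-1) ^ (n + 1)) * p.comp (-X)).coeff (n - i) =
      c * R.coeff i * (n.descFactorial i : ℝ) := by
    intro i hi
    rw [coeff_C_mul, comp_neg_coeff, hpoly i hi]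
    have e : ((-1 : ℝ)) ^ (n + 1) * ((-1) ^ i * (-1) ^ (n - i)) = -1 := by
      rw [← pow_add, ← pow_add, show n + 1 + (i + (n - i)) = 2 * n + 1 by omega, pow_succ,
        pow_mul]
      simp
    linear_combination (-(c * R.coeff i * (n.descFactorial i : ℝ))) * e
  have hfd : (C (c * (-1) ^ (n + 1)) * p.comp (-X)).natDegree ≤ n := by
    refine (natDegree_C_mul_le _ _).trans ?_
    rw [natDegree_comp]
    simpa using hpd
  have hcne : c * (-1) ^ (n + 1) ≠ 0 := mul_ne_zero hc (pow_ne_zero _ (by norm_num))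
  have hlib := Pool.Agent.Results.MP_31565c_an.Full.result n hn T _ hT.diagonalWith
  simp only [Nat.sub_self] at hlib
  have h0 := hγ 0 (by norm_num)
  simp only [Nat.cast_zero, zero_sub, Nat.factorial_zero, Nat.cast_one, one_mul] at h0
  rcases hadm with ⟨hm, hs⟩ | ⟨hm, hs⟩
  · -- the nondegenerate case
    have hR0 : R.coeff 0 = c := by
      rw [hR, hm]
      have := RP_coeff c 0 s M 0
      rw [zero_add] at this
      rw [this, lin'_coeff_zero, GP_zero, mul_one]
    have hγ0 : γ 0 ≠ 0 := by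
      intro h
      rw [h, hR0] at h0
      apply hc
      linarith
    have hlc : p.coeff n ≠ 0 := by
      have := hpoly 0 (by omega)
      rw [Nat.sub_zero] at this
      rw [this, hR0]
      simp [hc]
    have hdeg : p.natDegree = n := natDegree_eq_of_le_of_coeff_ne_zero hpd hlc
    have hcard : Multiset.card p.roots = n := by rw [← hsp.natDegree_eq_card_roots, hdeg]
    have h4 := one_pos_root _ n hfd (by
      intro k hk
      have e : k = n - (n - k) := by omega
      rw [e, hflip (n - k) (by omega)]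
      obtain ⟨t, ht, h5⟩ := RP_sign_zero c M hM (n - k) (by omega)
      have h6 : R.coeff (n - k) = -(c * t) := by rw [hR, hm, hs]; exact h5
      rw [h6]
      have : c * -(c * t) * (n.descFactorial (n - k) : ℝ) =
        -(c ^ 2 * (t * (n.descFactorial (n - k) : ℝ))) := by ring
      rw [this]
      have := mul_nonneg (sq_nonneg c) (mul_nonneg ht (Nat.cast_nonneg (α := ℝ)
        (n.descFactorial (n - k))))
      linarith)
    rw [roots_C_mul _ hcne, roots_comp_neg_X, Multiset.filter_map, Multiset.card_map] at h4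
    have h5 := Multiset.filter_add_not (fun x : ℝ => 0 ≤ x) p.roots
    have h6 := congrArg Multiset.card h5
    rw [Multiset.card_add, hcard] at h6
    have h7 : Multiset.card (Multiset.filter (fun x : ℝ => ¬ 0 ≤ x) p.roots) ≤ 1 := by
      refine le_trans (le_of_eq ?_) h4
      congr 1
      apply Multiset.filter_congr
      intro x _
      simp
    have h8 : n - 1 ≤ Multiset.card (Multiset.filter (fun x : ℝ => 0 ≤ x) p.roots) := by omega
    have hpres := (hlib.1 hγ0).mpr ⟨hreal, Or.inl h8⟩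
    exact (splits_iff_only _).mp (hpres g ((splits_iff_only _).mpr hg))
  · have hR0 : R.coeff 0 = 0 := by
      rw [hR]
      exact RP_coeff_lt _ _ _ _ _ (by omega)
    have hγ0 : γ 0 = 0 := by
      rw [hR0] at h0
      linarith
    have h4 := roots_nonpos (C (c * (-1) ^ (n + 1)) * p.comp (-X)) (by
      intro k
      by_cases hk : k ≤ n
      · have e : k = n - (n - k) := by omega
        rw [e, hflip (n - k) (by omega)]
        obtain ⟨t, ht, h5⟩ := RP_sign_pos c m M hM (n - k)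
        have h6 : R.coeff (n - k) = c * t := by rw [hR, hs]; exact h5
        rw [h6]
        have : c * (c * t) * (n.descFactorial (n - k) : ℝ) =
          c ^ 2 * (t * (n.descFactorial (n - k) : ℝ)) := by ring
        rw [this]
        exact mul_nonneg (sq_nonneg c) (mul_nonneg ht (Nat.cast_nonneg (α := ℝ) _))
      · rw [coeff_eq_zero_of_natDegree_lt (lt_of_le_of_lt hfd (by omega))])
    rw [roots_C_mul _ hcne, roots_comp_neg_X] at h4
    have hpres := (hlib.2 hγ0).mpr ⟨hreal, Or.inl (by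
      intro x hx
      have := h4 (-x) (Multiset.mem_map_of_mem _ hx)
      linarith)⟩
    exact (splits_iff_only _).mp (hpres g ((splits_iff_only _).mpr hg))

end Pool.Agent.KS6_51.PS
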