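import Pool.Agent.KS6_51.PS.Suf

set_option autoImplicit false

/-!
# Sufficiency, the limit
-/

open Filter Topology Finset Polynomial Pool.Agent.H635Z Pool.Agent.V11304.Diag
open Pool.Agent.Results.MP_0cd67c_ag.ZeroSumPreservers
open Pool.Agent.Results.MP_31565c_an.Full

namespace Pool.Agent.KS6_51.PS

/-- coefficients of the symbol -/
noncomputable def bco (γ : ℕ → ℝ) (i : ℕ) : ℝ := ((i : ℝ) - 1) * γ i / (i.factorial : ℝ)

lemma approx_sum (α : ℝ) (x : ℕ → ℝ) (N : ℕ) :
    (Multiset.replicate (N + 1) (α / (N + 1)) + (Multiset.range N).map x).sum =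
      α + ∑ k ∈ range N, x k := by
  rw [Multiset.sum_add, Multiset.sum_replicate, nsmul_eq_mul]
  congr 1
  push_cast
  field_simp

lemma approx_prod (α : ℝ) (x : ℕ → ℝ) (hxs : Summable x) (z : ℂ) :
    Tendsto (fun N : ℕ => ((Multiset.replicate (N + 1) (α / (N + 1)) +
      (Multiset.range N).map x).map fun u : ℝ => (1 + (u : ℂ) * z)).prod) atTop
      (𝓝 (Gf α x z)) := by
  have h1 : ∀ N : ℕ, ((Multiset.replicate (N + 1) (α / (N + 1)) +
      (Multiset.range N).map x).map fun u : ℝ => (1 + (u : ℂ) * z)).prod =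
      (1 + ((α : ℂ) * z) / ((N + 1 : ℕ) : ℂ)) ^ (N + 1) * ∏ k ∈ range N, (1 + (x k : ℂ) * z) := by
    intro N
    rw [Multiset.map_add, Multiset.prod_add, Multiset.map_replicate, Multiset.prod_replicate,
      Multiset.map_map]
    congr 1
    congr 1
    push_cast
    ring
  simp only [h1]
  unfold Gf
  apply Tendsto.mul
  · exact (Complex.tendsto_one_add_div_pow_exp ((α : ℂ) * z)).comp (tendsto_add_atTop_nat 1)
  · exact (Complex.multipliable_one_add_of_summable (summable_cast hxs z)).hasProd.tendsto_prod_nat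

/-- **Sufficiency.** -/
theorem suff_lim (n : ℕ) (hn : 2 ≤ n) (c α : ℝ) (x : ℕ → ℝ) (hα : 0 ≤ α) (hx : ∀ k, 0 ≤ x k)
    (hxs : Summable x) (m : ℕ) (s : ℝ) (hadm : Adm m s (α + ∑' k, x k)) (γ : ℕ → ℝ)
    (hγ : ∀ z : ℂ, HasSum (fun i => ((bco γ i : ℝ) : ℂ) * z ^ i)
      ((c : ℂ) * (z ^ m * ((1 - (s : ℂ) * z) * Gf α x z))))
    (T : ZeroSum n →ₗ[ℝ] ZeroSum n) (hT : Diag γ T) (g : ZeroSum n) (hg : (g : ℝ[X]).Splits) :
    (T g : ℝ[X]).Splits := by
  set M : ℕ → Multiset ℝ := fun N => Multiset.replicate (N + 1) (α / (N + 1)) +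
      (Multiset.range N).map x with hMdef
  set S := α + ∑' k, x k with hS
  have hM0 : ∀ N, ∀ u ∈ M N, 0 ≤ u := by
    intro N u hu
    rw [hMdef, Multiset.mem_add] at hu
    rcases hu with hu | hu
    · rw [Multiset.eq_of_mem_replicate hu]; positivity
    · rw [Multiset.mem_map] at hu
      obtain ⟨k, _, rfl⟩ := hu
      exact hx k
  have hMs : ∀ N, (M N).sum = α + ∑ k ∈ range N, x k := fun N => approx_sum α x N
  have hMS : ∀ N, (M N).sum ≤ S := by
    intro N
    rw [hMs, hS]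
    have := hxs.sum_le_tsum (range N) fun k _ => hx k
    linarith
  have hMp : ∀ N, 0 ≤ (M N).sum := fun N => Multiset.sum_nonneg (hM0 N)
  have hMlim : Tendsto (fun N => (M N).sum) atTop (𝓝 S) := by
    simp only [hMs]
    exact hxs.hasSum.tendsto_sum_nat.const_add α
  obtain ⟨sN, hs1, hs2, hs3⟩ : ∃ sN : ℕ → ℝ, (∀ N, Adm m (sN N) (M N).sum) ∧
      (∀ N, |sN N| ≤ S) ∧ Tendsto sN atTop (𝓝 s) := by
    rcases hadm with ⟨hm, hs⟩ | ⟨hm, hs⟩
    · refine ⟨fun N => (M N).sum, fun N => Or.inl ⟨hm, rfl⟩, fun N => ?_, ?_⟩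
      · rw [abs_of_nonneg (hMp N)]; exact hMS N
      · rw [hs]; exact hMlim
    · refine ⟨fun N => 0, fun N => Or.inr ⟨hm, rfl⟩, fun N => ?_, ?_⟩
      · rw [abs_zero]; exact (hMp N).trans (hMS N)
      · rw [hs]; exact tendsto_const_nhds
  set R : ℕ → ℝ[X] := fun N => RP c m (sN N) (M N) with hR
  have hbdd : Bdd R := RP_bdd (fun _ => c) m sN M |c| S (fun _ => le_rfl) hs2 hM0 hMS
  have hco : ∀ i, Tendsto (fun N => (R N).coeff i) atTop (𝓝 (bco γ i)) := by
    intro i
    refine coeff_tendsto R hbdd (bco γ) _ hγ ?_ i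
    intro z
    have : ∀ N, aeval z (R N) = c * (z ^ m * ((1 - sN N * z) *
      ((M N).map fun u : ℝ => (1 + (u : ℂ) * z)).prod)) := fun N => aeval_RP _ _ _ _ _
    simp only [this]
    refine Tendsto.const_mul _ (Tendsto.const_mul _ (Tendsto.mul ?_ (approx_prod α x hxs z)))
    refine Tendsto.const_sub _ (Tendsto.mul_const _ ?_)
    exact (Complex.continuous_ofReal.tendsto _).comp hs3
  -- the approximating multipliers
  set γN : ℕ → ℕ → ℝ := fun N i => (i.factorial : ℝ) * (R N).coeff i / ((i : ℝ) - 1) with hγN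
  have hne : ∀ i : ℕ, i ≠ 1 → ((i : ℝ) - 1) ≠ 0 := by
    intro i hi h
    apply hi
    have : (i : ℝ) = 1 := by linarith
    exact_mod_cast this
  have hγlim : ∀ i : ℕ, i ≠ 1 → Tendsto (fun N => γN N i) atTop (𝓝 (γ i)) := by
    intro i hi
    have h1 : γ i = (i.factorial : ℝ) * bco γ i / ((i : ℝ) - 1) := by
      unfold bco
      have := hne i hi
      have h2 : (i.factorial : ℝ) ≠ 0 := by exact_mod_cast i.factorial_ne_zero
      field_simp
    rw [h1]
    exact ((hco i).const_mul _).div_const _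
  have hTN : ∀ N, Diag (γN N) (diagMap (γN N) n n (by omega)) := fun N => diag_diagMap _ _ _ _
  have hsp : ∀ N, ((diagMap (γN N) n n (by omega : 1 ≤ n) g : ZeroSum n) : ℝ[X]).Splits := by
    intro N
    refine suff_poly n hn c m (sN N) (M N) (hM0 N) (hs1 N) (γN N) ?_ _ (hTN N) g hg
    intro i hi
    rw [hγN]
    have := hne i hi
    field_simp
    rfl
  refine splits_of_tendsto (l := atTop)
    (fun N => ((diagMap (γN N) n n (by omega : 1 ≤ n) g : ZeroSum n) : ℝ[X])) _
    (Eventually.of_forall hsp) ?_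
  intro z
  have hexp : ∀ p : ZeroSum n, aeval z (p : ℝ[X]) =
      ∑ k ∈ range (n + 1), (((p : ℝ[X]).coeff k : ℝ) : ℂ) * z ^ k := by
    intro p
    rw [aeval_eq_sum_range' (n := n + 1) (lt_of_le_of_lt p.2.1 (Nat.lt_succ_self n))]
    refine sum_congr rfl fun i _ => ?_
    rw [Algebra.smul_def]; rfl
  simp only [hexp]
  refine tendsto_finsetSum _ fun k hk => Tendsto.mul_const _ ?_
  refine (Complex.continuous_ofReal.tendsto _).comp ?_
  simp only [(hTN _).coeff' hn, hT.coeff' hn]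
  by_cases h : n - k = 1
  · have : k = n - 1 := by omega
    have h0 : (g : ℝ[X]).coeff k = 0 := by rw [this]; exact g.2.2
    simp only [h0, mul_zero]
    exact tendsto_const_nhds
  · exact (hγlim _ h).mul_const _

end Pool.Agent.KS6_51.PS
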